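import Mathlib

set_option maxHeartbeats 4000000
set_option synthInstance.maxHeartbeats 400000

/-!
# Powers of the augmentation ideal of a group ring: homogeneous elements
-/

namespace Pool.Agent.Q15.MT

open MonoidAlgebra

section Cg

variable {A : Type*} [CommRing A] (I : Ideal A)

/-- `a` and `b` are elements of `I ^ n` which are congruent modulo `I ^ (n + 1)`. -/
def Cg (n : ℕ) (a b : A) : Prop := a ∈ I ^ n ∧ b ∈ I ^ n ∧ a - b ∈ I ^ (n + 1)

variable {I}

theorem Cg.refl {n : ℕ} {a : A} (h : a ∈ I ^ n) : Cg I n a a :=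
  ⟨h, h, by rw [sub_self]; exact Ideal.zero_mem _⟩

theorem Cg.symm {n : ℕ} {a b : A} (h : Cg I n a b) : Cg I n b a :=
  ⟨h.2.1, h.1, by rw [← neg_sub]; exact Submodule.neg_mem _ h.2.2⟩

theorem Cg.trans {n : ℕ} {a b c : A} (h : Cg I n a b) (h' : Cg I n b c) : Cg I n a c :=
  ⟨h.1, h'.2.1, by
    have e : a - c = (a - b) + (b - c) := by ring
    rw [e]; exact Ideal.add_mem _ h.2.2 h'.2.2⟩

theorem Cg.mul {n m : ℕ} {a b c d : A} (h : Cg I n a b) (h' : Cg I m c d) :
    Cg I (n + m) (a * c) (b * d) := by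
  refine ⟨?_, ?_, ?_⟩
  · rw [pow_add]; exact Ideal.mul_mem_mul h.1 h'.1
  · rw [pow_add]; exact Ideal.mul_mem_mul h.2.1 h'.2.1
  · have e : a * c - b * d = (a - b) * c + b * (c - d) := by ring
    rw [e]
    refine Ideal.add_mem _ ?_ ?_
    · have := Ideal.mul_mem_mul h.2.2 h'.1
      rwa [← pow_add, show n + 1 + m = n + m + 1 by ring] at this
    · have := Ideal.mul_mem_mul h.2.1 h'.2.2
      rwa [← pow_add, show n + (m + 1) = n + m + 1 by ring] at this

theorem Cg.add {n : ℕ} {a b c d : A} (h : Cg I n a b) (h' : Cg I n c d) :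
    Cg I n (a + c) (b + d) :=
  ⟨Ideal.add_mem _ h.1 h'.1, Ideal.add_mem _ h.2.1 h'.2.1, by
    have e : a + c - (b + d) = (a - b) + (c - d) := by ring
    rw [e]; exact Ideal.add_mem _ h.2.2 h'.2.2⟩

theorem Cg.neg {n : ℕ} {a b : A} (h : Cg I n a b) : Cg I n (-a) (-b) :=
  ⟨Submodule.neg_mem _ h.1, Submodule.neg_mem _ h.2.1, by
    have e : -a - -b = -(a - b) := by ring
    rw [e]; exact Submodule.neg_mem _ h.2.2⟩

theorem Cg.mul_left {n : ℕ} {a b : A} (c : A) (h : Cg I n a b) : Cg I n (c * a) (c * b) :=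
  ⟨Ideal.mul_mem_left _ _ h.1, Ideal.mul_mem_left _ _ h.2.1, by
    rw [← mul_sub]; exact Ideal.mul_mem_left _ _ h.2.2⟩

theorem Cg.zero {n : ℕ} : Cg I n (0 : A) 0 := Cg.refl (Ideal.zero_mem _)

theorem Cg.sum {n : ℕ} {ι : Type*} (s : Finset ι) (a b : ι → A) (h : ∀ i ∈ s, Cg I n (a i) (b i)) :
    Cg I n (∑ i ∈ s, a i) (∑ i ∈ s, b i) := by
  classical
  induction s using Finset.induction_on with
  | empty => simpa using Cg.zero
  | insert i s hi ih =>
    rw [Finset.sum_insert hi, Finset.sum_insert hi]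
    exact (h i (Finset.mem_insert_self i s)).add
      (ih fun j hj => h j (Finset.mem_insert_of_mem hj))

theorem Cg.one : Cg I 0 (1 : A) 1 := Cg.refl (by simp)

theorem Cg.pow {n : ℕ} {a b : A} (h : Cg I n a b) (k : ℕ) : Cg I (n * k) (a ^ k) (b ^ k) := by
  induction k with
  | zero => simpa using Cg.one
  | succ k ih =>
    rw [pow_succ, pow_succ, Nat.mul_succ]
    exact ih.mul h

theorem Cg.prod {ι : Type*} (s : Finset ι) (n : ι → ℕ) (a b : ι → A)
    (h : ∀ i ∈ s, Cg I (n i) (a i) (b i)) :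
    Cg I (∑ i ∈ s, n i) (∏ i ∈ s, a i) (∏ i ∈ s, b i) := by
  classical
  induction s using Finset.induction_on with
  | empty => simpa using Cg.one
  | insert i s hi ih =>
    rw [Finset.sum_insert hi, Finset.prod_insert hi, Finset.prod_insert hi]
    exact (h i (Finset.mem_insert_self i s)).mul
      (ih fun j hj => h j (Finset.mem_insert_of_mem hj))

theorem Cg.det {r : ℕ} (M M' : Matrix (Fin r) (Fin r) A) (h : ∀ i j, Cg I 1 (M i j) (M' i j)) :
    Cg I r M.det M'.det := by
  rw [Matrix.det_apply, Matrix.det_apply]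
  refine Cg.sum _ _ _ fun σ _ => ?_
  have h1 : Cg I r (∏ i, M (σ i) i) (∏ i, M' (σ i) i) := by
    have := Cg.prod (I := I) (Finset.univ : Finset (Fin r)) (fun _ => 1) (fun i => M (σ i) i)
      (fun i => M' (σ i) i) (fun i _ => h _ _)
    simpa using this
  rcases Int.units_eq_one_or (Equiv.Perm.sign σ) with hs | hs
  · rw [hs, one_smul, one_smul]; exact h1
  · rw [hs, Units.neg_smul, one_smul, Units.neg_smul, one_smul]; exact h1.neg

theorem Cg.map {B : Type*} [CommRing B] {J : Ideal B} (f : A →+* B) (hf : ∀ x ∈ I, f x ∈ J)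
    {n : ℕ} {a b : A} (h : Cg I n a b) : Cg J n (f a) (f b) := by
  have h0 : I.map f ≤ J := Ideal.map_le_iff_le_comap.2 fun x hx => hf x hx
  have h1 : ∀ k, ∀ x ∈ I ^ k, f x ∈ J ^ k := fun k x hx => by
    have := Ideal.mem_map_of_mem f hx
    rw [Ideal.map_pow] at this
    exact Ideal.pow_right_mono h0 k this
  exact ⟨h1 _ _ h.1, h1 _ _ h.2.1, by rw [← map_sub]; exact h1 _ _ h.2.2⟩

end Cg

section aug

variable (R : Type*) [CommRing R] (G : Type*) [CommGroup G]

/-- The augmentation `R[G] → R`. -/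
noncomputable def aug : MonoidAlgebra R G →ₐ[R] R := MonoidAlgebra.lift R R G 1

/-- The augmentation ideal of the group ring `R[G]`. -/
noncomputable def augIdeal : Ideal (MonoidAlgebra R G) := RingHom.ker (aug R G)

variable {R G}

theorem mem_augIdeal {x : MonoidAlgebra R G} : x ∈ augIdeal R G ↔ aug R G x = 0 := Iff.rfl

theorem aug_of (g : G) : aug R G (of R G g) = 1 := by
  rw [aug, MonoidAlgebra.lift_of]; rfl

theorem of_sub_one_mem (g : G) : of R G g - 1 ∈ augIdeal R G := by
  rw [mem_augIdeal, map_sub, aug_of, map_one, sub_self]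

theorem sub_aug_mem (x : MonoidAlgebra R G) :
    x - algebraMap R _ (aug R G x) ∈ augIdeal R G := by
  rw [mem_augIdeal, map_sub, AlgHom.commutes, Algebra.algebraMap_self, RingHom.id_apply, sub_self]

variable {H : Type*} [CommGroup H]

/-- the map of group rings given by a homomorphism of groups -/
noncomputable abbrev mp (R : Type*) [CommRing R] (φ : G →* H) :
    MonoidAlgebra R G →+* MonoidAlgebra R H := MonoidAlgebra.mapDomainRingHom R φ

theorem mp_of (φ : G →* H) (g : G) : mp R φ (of R G g) = of R H (φ g) := by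
  simp [mp, MonoidAlgebra.of_apply]

theorem mp_algebraMap (φ : G →* H) (r : R) :
    mp R φ (algebraMap R _ r) = algebraMap R _ r := by
  simp [mp]

theorem aug_mp (φ : G →* H) (x : MonoidAlgebra R G) : aug R H (mp R φ x) = aug R G x := by
  induction x using MonoidAlgebra.induction_on with
  | of g => rw [mp_of, aug_of, aug_of]
  | add x y hx hy => rw [map_add, map_add, map_add, hx, hy]
  | smul r x hx =>
    rw [Algebra.smul_def, map_mul, map_mul, map_mul, mp_algebraMap, hx, AlgHom.commutes,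
      AlgHom.commutes]

theorem mp_mem (φ : G →* H) (x : MonoidAlgebra R G) (hx : x ∈ augIdeal R G) :
    mp R φ x ∈ augIdeal R H := by
  rw [mem_augIdeal, aug_mp]; exact hx

theorem mp_mem_pow (φ : G →* H) (k : ℕ) (x : MonoidAlgebra R G) (hx : x ∈ augIdeal R G ^ k) :
    mp R φ x ∈ augIdeal R H ^ k :=
  ((Cg.refl hx).map (mp R φ) (mp_mem φ)).1

/-- `g ↦ g - 1` is additive modulo the square of the augmentation ideal -/
theorem of_mul_sub (g h : G) :
    of R G (g * h) - 1 - ((of R G g - 1) + (of R G h - 1)) ∈ augIdeal R G ^ 2 := by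
  have e : of R G (g * h) - 1 - ((of R G g - 1) + (of R G h - 1)) =
      (of R G g - 1) * (of R G h - 1) := by
    rw [map_mul]; ring
  rw [e, pow_two]
  exact Ideal.mul_mem_mul (of_sub_one_mem g) (of_sub_one_mem h)

theorem of_inv_sub (g : G) :
    of R G g⁻¹ - 1 + (of R G g - 1) ∈ augIdeal R G ^ 2 := by
  have h := of_mul_sub (R := R) g g⁻¹
  rw [mul_inv_cancel, map_one, sub_self, zero_sub] at h
  have := Submodule.neg_mem _ h
  rw [neg_neg] at this
  rwa [add_comm] at this

theorem of_pow_sub (g : G) (n : ℕ) :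
    of R G (g ^ n) - 1 - (n : MonoidAlgebra R G) * (of R G g - 1) ∈ augIdeal R G ^ 2 := by
  induction n with
  | zero =>
    rw [pow_zero, map_one, sub_self, Nat.cast_zero, zero_mul, sub_self]
    exact Ideal.zero_mem _
  | succ n ih =>
    have h := of_mul_sub (R := R) (g ^ n) g
    have e : of R G (g ^ (n + 1)) - 1 - ((n + 1 : ℕ) : MonoidAlgebra R G) * (of R G g - 1) =
        (of R G (g ^ n * g) - 1 - ((of R G (g ^ n) - 1) + (of R G g - 1))) +
        (of R G (g ^ n) - 1 - (n : MonoidAlgebra R G) * (of R G g - 1)) := by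
      rw [pow_succ]; push_cast; ring
    rw [e]
    exact Ideal.add_mem _ h ih

theorem of_zpow_sub (g : G) (n : ℤ) :
    of R G (g ^ n) - 1 - (n : MonoidAlgebra R G) * (of R G g - 1) ∈ augIdeal R G ^ 2 := by
  obtain ⟨m, rfl | rfl⟩ := n.eq_nat_or_neg
  · rw [zpow_natCast, Int.cast_natCast]; exact of_pow_sub g m
  · have h := of_pow_sub (R := R) g m
    have h' := of_inv_sub (R := R) (g ^ m)
    have e : of R G (g ^ (-(m : ℤ))) - 1 - ((-(m : ℤ) : ℤ) : MonoidAlgebra R G) * (of R G g - 1) =
        (of R G (g ^ m)⁻¹ - 1 + (of R G (g ^ m) - 1)) -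
        (of R G (g ^ m) - 1 - (m : MonoidAlgebra R G) * (of R G g - 1)) := by
      rw [zpow_neg, zpow_natCast]; push_cast; ring
    rw [e]
    exact Ideal.sub_mem _ h' h

variable {ι : Type*} [Fintype ι]

theorem exists_lin (g : ι → G) (hg : Subgroup.closure (Set.range g) = ⊤) (x : G) :
    ∃ c : ι → R, of R G x - 1 - ∑ i, algebraMap R _ (c i) * (of R G (g i) - 1) ∈
      augIdeal R G ^ 2 := by
  classical
  have hx : x ∈ Subgroup.closure (Set.range g) := by rw [hg]; trivial
  induction hx using Subgroup.closure_induction with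
  | mem y hy =>
    obtain ⟨i, rfl⟩ := hy
    refine ⟨fun j => if j = i then 1 else 0, ?_⟩
    have e : ∑ j, algebraMap R (MonoidAlgebra R G) (if j = i then 1 else 0) *
        (of R G (g j) - 1) = of R G (g i) - 1 := by
      rw [Finset.sum_eq_single i]
      · rw [if_pos rfl, map_one, one_mul]
      · intro j _ hj
        rw [if_neg hj, map_zero, zero_mul]
      · intro h; exact absurd (Finset.mem_univ i) h
    rw [e, sub_self]
    exact Ideal.zero_mem _
  | one =>
    refine ⟨fun _ => 0, ?_⟩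
    rw [map_one, sub_self]
    simp only [map_zero, zero_mul, Finset.sum_const_zero, sub_zero]
    exact Ideal.zero_mem _
  | mul y z _ _ hy hz =>
    obtain ⟨c, hc⟩ := hy
    obtain ⟨d, hd⟩ := hz
    refine ⟨fun i => c i + d i, ?_⟩
    have h := of_mul_sub (R := R) y z
    have e : of R G (y * z) - 1 - ∑ i, algebraMap R _ (c i + d i) * (of R G (g i) - 1) =
        (of R G (y * z) - 1 - ((of R G y - 1) + (of R G z - 1))) +
        (of R G y - 1 - ∑ i, algebraMap R _ (c i) * (of R G (g i) - 1)) +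
        (of R G z - 1 - ∑ i, algebraMap R _ (d i) * (of R G (g i) - 1)) := by
      simp only [map_add, add_mul, Finset.sum_add_distrib]; ring
    rw [e]
    exact Ideal.add_mem _ (Ideal.add_mem _ h hc) hd
  | inv y _ hy =>
    obtain ⟨c, hc⟩ := hy
    refine ⟨fun i => -c i, ?_⟩
    have h := of_inv_sub (R := R) y
    have e : of R G y⁻¹ - 1 - ∑ i, algebraMap R _ (-c i) * (of R G (g i) - 1) =
        (of R G y⁻¹ - 1 + (of R G y - 1)) -
        (of R G y - 1 - ∑ i, algebraMap R _ (c i) * (of R G (g i) - 1)) := by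
      simp only [map_neg, neg_mul, Finset.sum_neg_distrib]; ring
    rw [e]
    exact Ideal.sub_mem _ h hc

theorem exists_lin' (g : ι → G) (hg : Subgroup.closure (Set.range g) = ⊤)
    (x : MonoidAlgebra R G) :
    ∃ c : ι → R, x - algebraMap R _ (aug R G x) - ∑ i, algebraMap R _ (c i) * (of R G (g i) - 1) ∈
      augIdeal R G ^ 2 := by
  induction x using MonoidAlgebra.induction_on with
  | of y =>
    obtain ⟨c, hc⟩ := exists_lin (R := R) g hg y
    exact ⟨c, by rwa [aug_of, map_one]⟩
  | add x y hx hy =>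
    obtain ⟨c, hc⟩ := hx
    obtain ⟨d, hd⟩ := hy
    refine ⟨fun i => c i + d i, ?_⟩
    have e : x + y - algebraMap R _ (aug R G (x + y)) -
        ∑ i, algebraMap R _ (c i + d i) * (of R G (g i) - 1) =
        (x - algebraMap R _ (aug R G x) - ∑ i, algebraMap R _ (c i) * (of R G (g i) - 1)) +
        (y - algebraMap R _ (aug R G y) - ∑ i, algebraMap R _ (d i) * (of R G (g i) - 1)) := by
      simp only [map_add, add_mul, Finset.sum_add_distrib]; ring
    rw [e]
    exact Ideal.add_mem _ hc hd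
  | smul r x hx =>
    obtain ⟨c, hc⟩ := hx
    refine ⟨fun i => r * c i, ?_⟩
    have e : r • x - algebraMap R _ (aug R G (r • x)) -
        ∑ i, algebraMap R _ (r * c i) * (of R G (g i) - 1) =
        algebraMap R _ r * (x - algebraMap R _ (aug R G x) -
          ∑ i, algebraMap R _ (c i) * (of R G (g i) - 1)) := by
      rw [map_smul, smul_eq_mul, map_mul, Algebra.smul_def, mul_sub, mul_sub, Finset.mul_sum]
      simp only [map_mul, mul_assoc]
    rw [e]
    exact Ideal.mul_mem_left _ _ hc

/-- every element of the `k`-th power is congruent to a homogeneous polynomial in the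
elements `g i - 1` -/
theorem exists_poly (g : ι → G) (hg : Subgroup.closure (Set.range g) = ⊤) (k : ℕ)
    (x : MonoidAlgebra R G) (hx : x ∈ augIdeal R G ^ k) :
    ∃ f : MvPolynomial ι R, f.IsHomogeneous k ∧
      Cg (augIdeal R G) k x (MvPolynomial.aeval (fun i => of R G (g i) - 1) f) := by
  induction k generalizing x with
  | zero =>
    refine ⟨MvPolynomial.C (aug R G x), MvPolynomial.isHomogeneous_C _ _, by simp, by simp, ?_⟩
    rw [MvPolynomial.aeval_C, zero_add, pow_one]
    exact sub_aug_mem x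
  | succ k ih =>
    rw [pow_succ] at hx
    induction hx using Submodule.mul_induction_on' with
    | mem_mul_mem a ha b hb =>
      obtain ⟨f, hf, hf'⟩ := ih a ha
      obtain ⟨c, hc⟩ := exists_lin' (R := R) g hg b
      rw [mem_augIdeal] at hb
      rw [hb, map_zero, sub_zero] at hc
      refine ⟨f * ∑ i, MvPolynomial.C (c i) * MvPolynomial.X i, ?_, ?_⟩
      · refine hf.mul (MvPolynomial.IsHomogeneous.sum _ _ _ fun i _ => ?_)
        have := (MvPolynomial.isHomogeneous_C ι (c i)).mul (MvPolynomial.isHomogeneous_X R i)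
        rwa [zero_add] at this
      · rw [map_mul]
        refine hf'.mul ⟨?_, ?_, ?_⟩
        · rw [pow_one]; exact hb
        · rw [pow_one, map_sum]
          refine Ideal.sum_mem _ fun i _ => ?_
          rw [map_mul, MvPolynomial.aeval_X]
          exact Ideal.mul_mem_left _ _ (of_sub_one_mem _)
        · rw [map_sum]
          simpa only [map_mul, MvPolynomial.aeval_X, MvPolynomial.aeval_C] using hc
    | add a _ b _ ha hb =>
      obtain ⟨f, hf, hf'⟩ := ha
      obtain ⟨f₂, hf₂, hf₂'⟩ := hb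
      refine ⟨f + f₂, hf.add hf₂, ?_⟩
      rw [map_add]
      exact hf'.add hf₂'

/-- values of homogeneous polynomials at congruent elements are congruent -/
theorem aeval_congr {A : Type*} [CommRing A] [Algebra R A] {I : Ideal A} (x y : ι → A)
    (h : ∀ i, Cg I 1 (x i) (y i)) (k : ℕ) (f : MvPolynomial ι R) (hf : f.IsHomogeneous k) :
    Cg I k (MvPolynomial.aeval x f) (MvPolynomial.aeval y f) := by
  rw [MvPolynomial.aeval_def, MvPolynomial.aeval_def, MvPolynomial.eval₂_eq',
    MvPolynomial.eval₂_eq']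
  refine Cg.sum _ _ _ fun d hd => Cg.mul_left _ ?_
  have h1 : ∑ i, d i = k := by
    have := hf (MvPolynomial.mem_support_iff.1 hd)
    rw [← this, Finsupp.weight_apply, Finsupp.sum_fintype _ _ (by simp)]
    simp
  have h2 := Cg.prod (I := I) (Finset.univ : Finset ι) (fun i => 1 * d i) (fun i => x i ^ d i)
    (fun i => y i ^ d i) (fun i _ => (h i).pow (d i))
  simp only [one_mul, h1] at h2
  exact h2

end aug

end Pool.Agent.Q15.MT
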