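import Pool.Agent.Q15.MT.A1

set_option maxHeartbeats 4000000
set_option synthInstance.maxHeartbeats 400000
set_option linter.unusedSectionVars false

/-!
# The graded pieces of the group ring of a cyclic group; polynomials with divisible values
-/

namespace Pool.Agent.Q15.MT

open MonoidAlgebra

section cyc

variable {R : Type*} [CommRing R] [IsDomain R] {C : Type*} [CommGroup C] [Fintype C]

theorem aug_eq_sum (x : MonoidAlgebra R C) : aug R C x = ∑ g, x.coeff g := by
  induction x using MonoidAlgebra.induction_on with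
  | of g =>
    classical
    rw [aug_of]
    simp [MonoidAlgebra.of_apply, MonoidAlgebra.coeff_single, Finsupp.single_apply]
  | add x y hx hy => rw [map_add, hx, hy]; simp [Finset.sum_add_distrib]
  | smul r x hx => rw [map_smul, hx]; simp [Finset.mul_sum]

theorem coeff_of_mul (u : C) (x : MonoidAlgebra R C) (g : C) :
    (of R C u * x).coeff (u * g) = x.coeff g := by
  rw [MonoidAlgebra.of_apply]
  have := MonoidAlgebra.coeff_single_mul_eq_mul_coeff (R := R) (x := x) (m := u) (m₁ := u * g)
    (r := 1) g (fun m' _ => by constructor <;> intro h <;> simpa using h)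
  rw [this, one_mul]

/-- an element killed by `u - 1`, `u` a generator, has constant coefficients -/
theorem coeff_const (u : C) (hu : ∀ g : C, g ∈ Subgroup.zpowers u) (x : MonoidAlgebra R C)
    (hx : (of R C u - 1) * x = 0) (g : C) : x.coeff g = x.coeff 1 := by
  have h0 : of R C u * x = x := by
    rw [sub_mul, one_mul, sub_eq_zero] at hx
    exact hx
  have h1 : ∀ g, x.coeff (u * g) = x.coeff g := fun g => by
    conv_lhs => rw [← h0]
    exact coeff_of_mul u x g
  obtain ⟨n, hn⟩ := hu g
  have h2 : ∀ n : ℕ, ∀ g, x.coeff (u ^ n * g) = x.coeff g := by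
    intro n
    induction n with
    | zero => intro g; simp
    | succ n ih => intro g; rw [pow_succ', mul_assoc, h1, ih]
  obtain ⟨m, rfl | rfl⟩ := n.eq_nat_or_neg
  · have := h2 m 1
    rw [mul_one] at this
    rw [← hn]
    simpa using this
  · have := h2 m g
    rw [← hn] at this ⊢
    simp only [zpow_neg, zpow_natCast, mul_inv_cancel] at this ⊢
    exact this.symm

theorem aug_of_killed (u : C) (hu : ∀ g : C, g ∈ Subgroup.zpowers u) (x : MonoidAlgebra R C)
    (hx : (of R C u - 1) * x = 0) : aug R C x = (Fintype.card C : R) * x.coeff 1 := by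
  rw [aug_eq_sum, Finset.sum_congr rfl fun g _ => coeff_const u hu x hx g, Finset.sum_const,
    nsmul_eq_mul, Finset.card_univ]

theorem killed_of_sq (u : C) (hu : ∀ g : C, g ∈ Subgroup.zpowers u)
    (hc : (Fintype.card C : R) ≠ 0) (x : MonoidAlgebra R C)
    (hx : (of R C u - 1) * ((of R C u - 1) * x) = 0) : (of R C u - 1) * x = 0 := by
  have h1 := aug_of_killed u hu _ hx
  have h2 : aug R C ((of R C u - 1) * x) = 0 :=
    (augIdeal R C).mul_mem_right x (of_sub_one_mem u)
  rw [h2] at h1
  have h3 : ((of R C u - 1) * x).coeff 1 = 0 := by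
    rcases mul_eq_zero.1 h1.symm with h | h
    · exact absurd h hc
    · exact h
  ext g
  rw [coeff_const u hu _ hx g, h3]
  rfl

theorem killed_of_pow (u : C) (hu : ∀ g : C, g ∈ Subgroup.zpowers u)
    (hc : (Fintype.card C : R) ≠ 0) (k : ℕ) (x : MonoidAlgebra R C)
    (hx : (of R C u - 1) ^ (k + 1) * x = 0) : (of R C u - 1) * x = 0 := by
  induction k generalizing x with
  | zero => simpa using hx
  | succ k ih =>
    rw [pow_succ, mul_assoc] at hx
    exact killed_of_sq u hu hc x (ih _ hx)

theorem augIdeal_eq_span (u : C) (hu : ∀ g : C, g ∈ Subgroup.zpowers u) :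
    augIdeal R C = Ideal.span {of R C u - 1} := by
  apply le_antisymm
  · have h1 : ∀ g : C, of R C g - 1 ∈ Ideal.span {of R C u - 1} := by
      intro g
      have hg : g ∈ Subgroup.closure {u} := by
        rw [← Subgroup.zpowers_eq_closure]; exact hu g
      induction hg using Subgroup.closure_induction with
      | mem y hy =>
        rw [Set.mem_singleton_iff.1 hy]
        exact Ideal.subset_span rfl
      | one => rw [map_one, sub_self]; exact Ideal.zero_mem _
      | mul y z _ _ hy hz =>
        have e : of R C (y * z) - 1 = (of R C y - 1) * of R C z + (of R C z - 1) := by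
          rw [map_mul]; ring
        rw [e]
        exact Ideal.add_mem _ (Ideal.mul_mem_right _ _ hy) hz
      | inv y _ hy =>
        have e : of R C y⁻¹ - 1 = - (of R C y⁻¹) * (of R C y - 1) := by
          have : of R C y⁻¹ * of R C y = 1 := by rw [← map_mul, inv_mul_cancel, map_one]
          rw [neg_mul, mul_sub, this]; ring
        rw [e]
        exact Ideal.mul_mem_left _ _ hy
    have h2 : ∀ x : MonoidAlgebra R C, x - algebraMap R _ (aug R C x) ∈
        Ideal.span {of R C u - 1} := by
      intro x
      induction x using MonoidAlgebra.induction_on with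
      | of g => rw [aug_of, map_one]; exact h1 g
      | add x y hx hy =>
        have e : x + y - algebraMap R _ (aug R C (x + y)) =
            (x - algebraMap R _ (aug R C x)) + (y - algebraMap R _ (aug R C y)) := by
          rw [map_add, map_add]; ring
        rw [e]; exact Ideal.add_mem _ hx hy
      | smul r x hx =>
        have e : r • x - algebraMap R _ (aug R C (r • x)) =
            algebraMap R _ r * (x - algebraMap R _ (aug R C x)) := by
          rw [map_smul, smul_eq_mul, map_mul, Algebra.smul_def, mul_sub]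
        rw [e]; exact Ideal.mul_mem_left _ _ hx
    intro x hx
    have := h2 x
    rw [mem_augIdeal] at hx
    rwa [hx, map_zero, sub_zero] at this
  · rw [Ideal.span_le, Set.singleton_subset_iff]
    exact of_sub_one_mem u

/-- The graded pieces of positive degree of the group ring of a cyclic group of order `n` are
cyclic of order `n`. -/
theorem dvd_of_mem (u : C) (hu : ∀ g : C, g ∈ Subgroup.zpowers u)
    (hc : (Fintype.card C : R) ≠ 0) (k : ℕ) (hk : 0 < k) (r : R)
    (h : algebraMap R _ r * (of R C u - 1) ^ k ∈ augIdeal R C ^ (k + 1)) :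
    (Fintype.card C : R) ∣ r := by
  rw [augIdeal_eq_span u hu, Ideal.span_singleton_pow, Ideal.mem_span_singleton] at h
  obtain ⟨y, hy⟩ := h
  obtain ⟨j, rfl⟩ : ∃ j, k = j + 1 := ⟨k - 1, by omega⟩
  have h1 : (of R C u - 1) ^ (j + 1) * (algebraMap R _ r - (of R C u - 1) * y) = 0 := by
    rw [mul_sub, sub_eq_zero, mul_comm, hy, pow_succ _ (j + 1), mul_assoc]
  have h2 := aug_of_killed u hu _ (killed_of_pow u hu hc j _ h1)
  have h3 : aug R C ((of R C u - 1) * y) = 0 :=
    (augIdeal R C).mul_mem_right y (of_sub_one_mem u)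
  rw [map_sub, h3, sub_zero, AlgHom.commutes] at h2
  exact ⟨_, h2⟩

end cyc

section poly

variable {p : ℕ} [hp : Fact p.Prime] {ι : Type} [Fintype ι]

/-- a homogeneous polynomial of degree at most `p` over `𝔽_p` without nonzero values is zero -/
theorem eq_zero_of_values (k : ℕ) (hk : k ≤ p) (f : MvPolynomial ι (ZMod p))
    (hf : f.IsHomogeneous k) (hv : ∀ v : ι → ZMod p, MvPolynomial.eval v f = 0) : f = 0 := by
  classical
  apply MvPolynomial.eq_zero_of_eval_eq_zero ι (ZMod p) f hv
  rw [MvPolynomial.mem_restrictDegree]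
  intro d hd i
  rw [ZMod.card]
  have hdc := MvPolynomial.mem_support_iff.1 hd
  have hsum : ∑ j, d j = k := by
    have := hf hdc
    rw [← this, Finsupp.weight_apply, Finsupp.sum_fintype _ _ (by simp)]
    simp
  by_contra hcon
  push Not at hcon
  have hdi : d i ≤ ∑ j, d j := Finset.single_le_sum (fun _ _ => Nat.zero_le _) (Finset.mem_univ i)
  have hp1 := hp.out.one_lt
  have hdi' : d i = p := by omega
  have hkp : k = p := by omega
  have hd0 : d = Finsupp.single i p := by
    ext j
    by_cases hj : j = i
    · rw [hj, hdi', Finsupp.single_eq_same]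
    · rw [Finsupp.single_eq_of_ne hj]
      have h2 : d i + d j ≤ ∑ j, d j := by
        have := Finset.sum_le_univ_sum_of_nonneg (s := {i, j}) (f := fun j => d j)
          (fun _ => Nat.zero_le _)
        rwa [Finset.sum_pair (Ne.symm hj)] at this
      omega
  have h1 := hv (Pi.single i 1)
  rw [MvPolynomial.eval_eq', Finset.sum_eq_single d] at h1
  · apply hdc
    have h3 : ∏ j, (Pi.single i (1 : ZMod p) : ι → ZMod p) j ^ d j = 1 := by
      refine Finset.prod_eq_one fun j _ => ?_
      by_cases hj : j = i
      · rw [hj, Pi.single_eq_same, one_pow]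
      · rw [hd0, Finsupp.single_eq_of_ne hj, pow_zero]
    rwa [h3, mul_one] at h1
  · intro e he hne
    have hec := MvPolynomial.mem_support_iff.1 he
    have hsum' : ∑ j, e j = k := by
      have := hf hec
      rw [← this, Finsupp.weight_apply, Finsupp.sum_fintype _ _ (by simp)]
      simp
    obtain ⟨j, hj, hej⟩ : ∃ j, j ≠ i ∧ e j ≠ 0 := by
      by_contra hall
      push Not at hall
      apply hne
      rw [hd0]
      ext j
      by_cases hj : j = i
      · rw [hj, Finsupp.single_eq_same]
        rw [Finset.sum_eq_single i (fun j _ hj => hall j hj) (by simp)] at hsum'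
        omega
      · rw [Finsupp.single_eq_of_ne hj, hall j hj]
    rw [Finset.prod_eq_zero (Finset.mem_univ j), mul_zero]
    rw [Pi.single_eq_of_ne hj, zero_pow hej]
  · intro h
    exact absurd hd h

/-- a homogeneous polynomial of degree at most `p` over `ℤ_p` with values divisible by `p ^ b` has
coefficients divisible by `p ^ b` -/
theorem dvd_coeff_of_values (k : ℕ) (hk : k ≤ p) (b : ℕ) (f : MvPolynomial ι ℤ_[p])
    (hf : f.IsHomogeneous k)
    (hv : ∀ v : ι → ℤ, (p : ℤ_[p]) ^ b ∣ MvPolynomial.eval (fun i => (v i : ℤ_[p])) f)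
    (d : ι →₀ ℕ) : (p : ℤ_[p]) ^ b ∣ f.coeff d := by
  induction b generalizing f d with
  | zero => simp
  | succ b ih =>
    have hp0 : (p : ℤ_[p]) ≠ 0 := by exact_mod_cast hp.out.ne_zero
    have hker : ∀ x : ℤ_[p], PadicInt.toZMod x = 0 ↔ (p : ℤ_[p]) ∣ x := fun x => by
      rw [← RingHom.mem_ker, PadicInt.ker_toZMod, PadicInt.maximalIdeal_eq_span_p,
        Ideal.mem_span_singleton]
    have h1 : MvPolynomial.map PadicInt.toZMod f = 0 := by
      refine eq_zero_of_values k hk _ (hf.map _) fun v => ?_
      have h2 := hv fun i => ((v i).val : ℤ)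
      have h3 : (p : ℤ_[p]) ∣ MvPolynomial.eval (fun i => (((v i).val : ℤ) : ℤ_[p])) f :=
        dvd_trans (dvd_pow_self _ (Nat.succ_ne_zero b)) h2
      rw [← hker, MvPolynomial.map_eval] at h3
      have h4 : (fun i => (PadicInt.toZMod (((v i).val : ℤ) : ℤ_[p]) : ZMod p)) = v := by
        funext i
        simp
      have h5 : (PadicInt.toZMod ∘ fun i => (((v i).val : ℤ) : ℤ_[p])) = v := h4
      rwa [h5] at h3
    have h2 : MvPolynomial.C (p : ℤ_[p]) ∣ f := by
      rw [MvPolynomial.C_dvd_iff_dvd_coeff]
      intro e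
      rw [← hker, ← MvPolynomial.coeff_map, h1, MvPolynomial.coeff_zero]
    obtain ⟨f', rfl⟩ := h2
    have hf' : f'.IsHomogeneous k := by
      intro e he
      apply hf
      rw [MvPolynomial.coeff_C_mul]
      exact mul_ne_zero hp0 he
    have h3 := ih f' hf' (fun v => by
      have := hv v
      rw [map_mul, MvPolynomial.eval_C, pow_succ'] at this
      exact (mul_dvd_mul_iff_left hp0).1 this) d
    rw [MvPolynomial.coeff_C_mul, pow_succ']
    exact mul_dvd_mul_left _ h3

end poly

end Pool.Agent.Q15.MT
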