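import Pool.Agent.Q15.MT.A2

set_option maxHeartbeats 4000000
set_option synthInstance.maxHeartbeats 400000
set_option linter.unusedSectionVars false

/-!
# Powers of the augmentation ideal are detected by cyclic quotients
-/

namespace Pool.Agent.Q15.MT

open MonoidAlgebra

section

variable {R : Type*} [CommRing R] {ι : Type*} [Fintype ι]

theorem sum_eq_of_homogeneous {k : ℕ} {f : MvPolynomial ι R} (hf : f.IsHomogeneous k)
    {d : ι →₀ ℕ} (hd : d ∈ f.support) : ∑ i, d i = k := by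
  have := hf (MvPolynomial.mem_support_iff.1 hd)
  rw [← this, Finsupp.weight_apply, Finsupp.sum_fintype _ _ (by simp)]
  simp

theorem aeval_mul_const {A : Type*} [CommRing A] [Algebra R A] (c : ι → R) (t : A) (k : ℕ)
    (f : MvPolynomial ι R) (hf : f.IsHomogeneous k) :
    MvPolynomial.aeval (fun i => algebraMap R A (c i) * t) f =
      algebraMap R A (MvPolynomial.eval c f) * t ^ k := by
  rw [MvPolynomial.aeval_def, MvPolynomial.eval₂_eq', MvPolynomial.eval_eq', map_sum,
    Finset.sum_mul]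
  refine Finset.sum_congr rfl fun d hd => ?_
  rw [map_mul, map_prod, mul_assoc]
  congr 1
  rw [← sum_eq_of_homogeneous hf hd, ← Finset.prod_pow_eq_pow_sum, ← Finset.prod_mul_distrib]
  exact Finset.prod_congr rfl fun i _ => by rw [mul_pow, map_pow]

theorem mp_aeval {G H : Type*} [CommGroup G] [CommGroup H] (φ : G →* H) (x : ι → MonoidAlgebra R G)
    (f : MvPolynomial ι R) :
    mp R φ (MvPolynomial.aeval x f) = MvPolynomial.aeval (fun i => mp R φ (x i)) f := by
  rw [MvPolynomial.aeval_def, MvPolynomial.aeval_def, MvPolynomial.eval₂_eq',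
    MvPolynomial.eval₂_eq', map_sum]
  refine Finset.sum_congr rfl fun d _ => ?_
  rw [map_mul, mp_algebraMap, map_prod]
  simp only [map_pow]

end

section

variable {p : ℕ} [hp : Fact p.Prime]

theorem isUnit_of_not_dvd {n : ℕ} (h : ¬ p ∣ n) : IsUnit (n : ℤ_[p]) := by
  rw [PadicInt.isUnit_iff, PadicInt.norm_natCast_eq_one_iff]
  exact (hp.out.coprime_iff_not_dvd).2 h

variable {ι : Type} [Fintype ι] {n : ι → ℕ}

/-- the generators of a product of cyclic groups -/
noncomputable def gen [DecidableEq ι] {G : Type*} [CommGroup G]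
    (e : G ≃* ((i : ι) → Multiplicative (ZMod (n i)))) (i : ι) : G :=
  e.symm (Pi.mulSingle (M := fun i => Multiplicative (ZMod (n i))) i (Multiplicative.ofAdd 1))

/-- the homomorphism to a cyclic group which takes the `i`-th generator to `v i` -/
theorem exists_hom [DecidableEq ι] {G : Type*} [CommGroup G]
    (e : G ≃* ((i : ι) → Multiplicative (ZMod (n i))))
    (b : ℕ) (v : ι → ℤ) (hv : ∀ i, (p ^ b : ℤ) ∣ n i * v i) :
    ∃ φ : G →* Multiplicative (ZMod (p ^ b)), ∀ i,
      φ (gen e i) = Multiplicative.ofAdd (v i : ZMod (p ^ b)) := by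
  let L : ∀ i, ZMod (n i) →+ ZMod (p ^ b) := fun i =>
    ZMod.lift (n i) ⟨zmultiplesHom _ (v i : ZMod (p ^ b)), by
      rw [zmultiplesHom_apply]
      have : ((n i * v i : ℤ) : ZMod (p ^ b)) = 0 := by
        rw [ZMod.intCast_zmod_eq_zero_iff_dvd]
        exact_mod_cast hv i
      rw [zsmul_eq_mul]
      push_cast at this ⊢
      exact this⟩
  let M : ∀ i, Multiplicative (ZMod (n i)) →* Multiplicative (ZMod (p ^ b)) := fun i =>
    AddMonoidHom.toMultiplicative (L i)
  refine ⟨(∏ i, (M i).comp (Pi.evalMonoidHom _ i)).comp e.toMonoidHom, fun j => ?_⟩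
  have h1 : ∀ i, ((M i).comp (Pi.evalMonoidHom _ i))
      (Pi.mulSingle (M := fun i => Multiplicative (ZMod (n i))) j
        (Multiplicative.ofAdd (1 : ZMod (n j)))) =
      if i = j then Multiplicative.ofAdd (v j : ZMod (p ^ b)) else 1 := by
    intro i
    by_cases hij : i = j
    · subst hij
      rw [if_pos rfl]
      have : (M i).comp (Pi.evalMonoidHom _ i)
          (Pi.mulSingle (M := fun i => Multiplicative (ZMod (n i))) i (Multiplicative.ofAdd 1)) =
          Multiplicative.ofAdd (L i 1) := by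
        simp [M]
      have h2 : L i 1 = v i := by
        have := ZMod.lift_coe (n i) (⟨zmultiplesHom _ (v i : ZMod (p ^ b)), by
          rw [zmultiplesHom_apply]
          have : ((n i * v i : ℤ) : ZMod (p ^ b)) = 0 := by
            rw [ZMod.intCast_zmod_eq_zero_iff_dvd]
            exact_mod_cast hv i
          rw [zsmul_eq_mul]
          push_cast at this ⊢
          exact this⟩ : {f : ℤ →+ ZMod (p ^ b) // f (n i) = 0}) 1
        simpa [L] using this
      convert this using 2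
      · exact h2.symm
    · rw [if_neg hij]
      simp [Pi.mulSingle_eq_of_ne hij]
  rw [MonoidHom.comp_apply, gen]
  simp only [MulEquiv.toMonoidHom_eq_coe, MonoidHom.coe_coe, MulEquiv.apply_symm_apply]
  rw [MonoidHom.finsetProd_apply, Finset.prod_congr rfl fun i _ => h1 i]
  rw [Finset.prod_ite_eq' Finset.univ j, if_pos (Finset.mem_univ j)]

theorem closure_gens [DecidableEq ι] {G : Type*} [CommGroup G]
    (e : G ≃* ((i : ι) → Multiplicative (ZMod (n i)))) (hn : ∀ i, 1 < n i) :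
    Subgroup.closure (Set.range (gen e)) = ⊤ := by
  rw [eq_top_iff]
  intro x _
  have h1 : x = ∏ i, e.symm (Pi.mulSingle (M := fun i => Multiplicative (ZMod (n i))) i (e x i)) := by
    rw [← map_prod, Finset.univ_prod_mulSingle, MulEquiv.symm_apply_apply]
  rw [h1]
  refine Subgroup.prod_mem _ fun i _ => ?_
  have : NeZero (n i) := ⟨by have := hn i; omega⟩
  have h2 : e x i = (Multiplicative.ofAdd (1 : ZMod (n i))) ^ (Multiplicative.toAdd (e x i)).val := by
    rw [← ofAdd_nsmul, nsmul_eq_mul, mul_one, ZMod.natCast_zmod_val, ofAdd_toAdd]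
  rw [h2, Pi.mulSingle_pow, map_pow]
  exact Subgroup.pow_mem _ (Subgroup.subset_closure (Set.mem_range_self (f := gen e) i)) _

theorem zpowers_ofAdd (N : ℕ) [NeZero N] (x : Multiplicative (ZMod N)) :
    x ∈ Subgroup.zpowers (Multiplicative.ofAdd (1 : ZMod N)) := by
  refine Subgroup.mem_zpowers_iff.2 ⟨((Multiplicative.toAdd x).val : ℤ), ?_⟩
  rw [zpow_natCast, ← ofAdd_nsmul, nsmul_eq_mul, mul_one, ZMod.natCast_zmod_val, ofAdd_toAdd]

/-- the values of the homogeneous polynomial of an element which is in the `k + 1`-st power in the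
cyclic quotients -/
theorem dvd_value {G : Type*} [CommGroup G] [DecidableEq ι]
    (e : G ≃* ((i : ι) → Multiplicative (ZMod (n i)))) (k : ℕ) (hk : 0 < k)
    (x : MonoidAlgebra ℤ_[p] G) (f : MvPolynomial ι ℤ_[p]) (hf : f.IsHomogeneous k)
    (hxf : Cg (augIdeal ℤ_[p] G) k x (MvPolynomial.aeval
      (fun i => of ℤ_[p] G (gen e i) - 1) f))
    (b : ℕ) (hx : ∀ φ : G →* Multiplicative (ZMod (p ^ b)),
      mp ℤ_[p] φ x ∈ augIdeal ℤ_[p] (Multiplicative (ZMod (p ^ b))) ^ (k + 1))
    (v : ι → ℤ) (hv : ∀ i, (p ^ b : ℤ) ∣ n i * v i) :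
    (p : ℤ_[p]) ^ b ∣ MvPolynomial.eval (fun i => (v i : ℤ_[p])) f := by
  obtain ⟨φ, hφ⟩ := exists_hom e b v hv
  have : NeZero (p ^ b) := ⟨pow_ne_zero _ hp.out.ne_zero⟩
  set C := Multiplicative (ZMod (p ^ b)) with hC
  set u : C := Multiplicative.ofAdd 1 with hu
  have h1 := hxf.map (mp ℤ_[p] φ) (mp_mem φ)
  rw [mp_aeval] at h1
  have h2 : Cg (augIdeal ℤ_[p] C) k
      (MvPolynomial.aeval (fun i => mp ℤ_[p] φ (of ℤ_[p] G (gen e i) - 1)) f)
      (MvPolynomial.aeval (fun i => algebraMap ℤ_[p] _ (v i : ℤ_[p]) * (of ℤ_[p] C u - 1)) f) := by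
    refine aeval_congr _ _ (fun i => ?_) k f hf
    rw [map_sub, RingHom.map_one, mp_of, hφ]
    have h3 : Multiplicative.ofAdd (v i : ZMod (p ^ b)) = u ^ v i := by
      rw [hu, ← ofAdd_zsmul, zsmul_eq_mul, mul_one]
    rw [h3]
    refine ⟨?_, ?_, ?_⟩
    · rw [pow_one]; exact of_sub_one_mem _
    · rw [pow_one]; exact Ideal.mul_mem_left _ _ (of_sub_one_mem _)
    · have := of_zpow_sub (R := ℤ_[p]) u (v i)
      rw [map_intCast]
      exact this
  rw [aeval_mul_const _ _ k f hf] at h2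
  have h4 := (h1.trans h2).symm
  have h5 : algebraMap ℤ_[p] _ (MvPolynomial.eval (fun i => (v i : ℤ_[p])) f) *
      (of ℤ_[p] C u - 1) ^ k ∈ augIdeal ℤ_[p] C ^ (k + 1) := by
    have := Ideal.add_mem _ h4.2.2 (hx φ)
    rwa [sub_add_cancel] at this
  have hcard : Fintype.card C = p ^ b := by
    change Fintype.card (Multiplicative (ZMod (p ^ b))) = p ^ b
    rw [Fintype.card_multiplicative, ZMod.card]
  have h6 := dvd_of_mem (R := ℤ_[p]) u (zpowers_ofAdd (p ^ b))
    (by rw [hcard]; exact_mod_cast pow_ne_zero b hp.out.ne_zero) k hk _ h5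
  rw [hcard] at h6
  exact_mod_cast h6

/-- the part of a polynomial in the variables of a set -/
theorem dvd_coeff_of_values' (k : ℕ) (hk : k ≤ p) (b : ℕ) (f : MvPolynomial ι ℤ_[p])
    (hf : f.IsHomogeneous k) (J : ι → Prop)
    (hv : ∀ v : ι → ℤ, (∀ i, ¬ J i → v i = 0) →
      (p : ℤ_[p]) ^ b ∣ MvPolynomial.eval (fun i => (v i : ℤ_[p])) f)
    (d : ι →₀ ℕ) (hd : ∀ i, d i ≠ 0 → J i) : (p : ℤ_[p]) ^ b ∣ f.coeff d := by
  classical
  set g : MvPolynomial ι ℤ_[p] := ∑ e ∈ f.support.filter (fun e => ∀ i, e i ≠ 0 → J i),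
    MvPolynomial.monomial e (f.coeff e) with hg
  have hgc : ∀ e, g.coeff e = if ∀ i, e i ≠ 0 → J i then f.coeff e else 0 := by
    intro e
    rw [hg, MvPolynomial.coeff_sum]
    simp only [MvPolynomial.coeff_monomial]
    rw [Finset.sum_ite_eq']
    simp only [Finset.mem_filter, MvPolynomial.mem_support_iff]
    by_cases h : ∀ i, e i ≠ 0 → J i
    · by_cases h0 : f.coeff e = 0
      · rw [if_pos h, h0]; simp
      · rw [if_pos ⟨h0, h⟩, if_pos h]
    · rw [if_neg h, if_neg fun h' => h h'.2]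
  have hgh : g.IsHomogeneous k := by
    intro e he
    rw [hgc] at he
    by_cases h : ∀ i, e i ≠ 0 → J i
    · rw [if_pos h] at he; exact hf he
    · rw [if_neg h] at he; exact absurd rfl he
  have h1 := dvd_coeff_of_values k hk b g hgh (fun v => by
    have h2 : MvPolynomial.eval (fun i => (v i : ℤ_[p])) g =
        MvPolynomial.eval (fun i => ((if J i then v i else 0 : ℤ) : ℤ_[p])) f := by
      rw [hg, map_sum, MvPolynomial.eval_eq', ← Finset.sum_filter_add_sum_filter_not f.support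
        (fun e => ∀ i, e i ≠ 0 → J i)]
      have h3 : ∑ e ∈ f.support.filter (fun e => ¬ ∀ i, e i ≠ 0 → J i), f.coeff e *
          ∏ i, ((if J i then v i else 0 : ℤ) : ℤ_[p]) ^ e i = 0 := by
        refine Finset.sum_eq_zero fun e he => ?_
        obtain ⟨_, he⟩ := Finset.mem_filter.1 he
        push Not at he
        obtain ⟨i, hi, hJ⟩ := he
        rw [Finset.prod_eq_zero (Finset.mem_univ i), mul_zero]
        rw [if_neg hJ, Int.cast_zero, zero_pow hi]
      rw [h3, add_zero]
      refine Finset.sum_congr rfl fun e he => ?_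
      obtain ⟨_, he⟩ := Finset.mem_filter.1 he
      rw [MvPolynomial.eval_monomial, Finsupp.prod_fintype _ _ (by simp)]
      congr 1
      refine Finset.prod_congr rfl fun i _ => ?_
      by_cases h0 : e i = 0
      · rw [h0, pow_zero, pow_zero]
      · rw [if_pos (he i h0)]
    rw [h2]
    exact hv _ fun i hi => if_neg hi) d
  rwa [hgc, if_pos hd] at h1

/-- One step: an element of the `k`-th power which is in the `k + 1`-st power in all cyclic
`p`-quotients is in the `k + 1`-st power, `1 ≤ k ≤ p`. -/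
theorem mem_succ {G : Type*} [CommGroup G] [Finite G] (k : ℕ) (hk : 0 < k) (hkp : k ≤ p)
    (x : MonoidAlgebra ℤ_[p] G) (hxk : x ∈ augIdeal ℤ_[p] G ^ k)
    (hx : ∀ (b : ℕ) (φ : G →* Multiplicative (ZMod (p ^ b))),
      mp ℤ_[p] φ x ∈ augIdeal ℤ_[p] (Multiplicative (ZMod (p ^ b))) ^ (k + 1)) :
    x ∈ augIdeal ℤ_[p] G ^ (k + 1) := by
  classical
  obtain ⟨ι, _, n, hn, ⟨e⟩⟩ := CommGroup.equiv_prod_multiplicative_zmod_of_finite G
  set g : ι → G := gen e with hg
  obtain ⟨f, hf, hxf⟩ := exists_poly (R := ℤ_[p]) g (closure_gens e hn) k x hxk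
  suffices h : MvPolynomial.aeval (fun i => of ℤ_[p] G (g i) - 1) f ∈
      augIdeal ℤ_[p] G ^ (k + 1) by
    have := Ideal.add_mem _ hxf.2.2 h
    rwa [sub_add_cancel] at this
  rw [MvPolynomial.aeval_def, MvPolynomial.eval₂_eq']
  refine Ideal.sum_mem _ fun d hd => ?_
  have hdk := sum_eq_of_homogeneous hf hd
  -- a variable of the monomial with the smallest order
  have hne : (Finset.univ.filter fun i => d i ≠ 0).Nonempty := by
    by_contra h
    rw [Finset.not_nonempty_iff_eq_empty, Finset.filter_eq_empty_iff] at h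
    have : ∑ i, d i = 0 := Finset.sum_eq_zero fun i hi => by
      have := h hi; push Not at this; exact this
    omega
  obtain ⟨j, hj, hjmin⟩ := Finset.exists_min_image _ (fun i => (n i).factorization p) hne
  have hj0 : d j ≠ 0 := (Finset.mem_filter.1 hj).2
  set b := (n j).factorization p with hb
  have hdvd : (p : ℤ_[p]) ^ b ∣ f.coeff d := by
    refine dvd_coeff_of_values' k hkp b f hf (fun i => p ^ b ∣ n i) (fun v hv => ?_) d
      fun i hi => ?_
    · refine dvd_value e k hk x f hf hxf b (hx b) v fun i => ?_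
      by_cases h : p ^ b ∣ n i
      · exact dvd_mul_of_dvd_left (by exact_mod_cast h) _
      · rw [hv i h, mul_zero]; exact dvd_zero _
    · have h1 := hjmin i (Finset.mem_filter.2 ⟨Finset.mem_univ i, hi⟩)
      exact dvd_trans (pow_dvd_pow p h1) (Nat.ordProj_dvd (n i) p)
  obtain ⟨c, hc⟩ := hdvd
  -- `p ^ b * (g j - 1)` is in the square of the augmentation ideal
  have hsq : algebraMap ℤ_[p] (MonoidAlgebra ℤ_[p] G) ((p : ℤ_[p]) ^ b) *
      (of ℤ_[p] G (g j) - 1) ∈ augIdeal ℤ_[p] G ^ 2 := by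
    have hgn : g j ^ n j = 1 := by
      rw [hg, gen, ← map_pow, ← Pi.mulSingle_pow, ← ofAdd_nsmul, nsmul_eq_mul, mul_one,
        ZMod.natCast_self, ofAdd_zero, Pi.mulSingle_one, map_one]
    have h1 := of_pow_sub (R := ℤ_[p]) (g j) (n j)
    rw [hgn, map_one, sub_self, zero_sub] at h1
    have h2 := Submodule.neg_mem _ h1
    rw [neg_neg] at h2
    have hn0 : n j ≠ 0 := by have := hn j; omega
    obtain ⟨w, hw⟩ := isUnit_of_not_dvd (p := p) (Nat.not_dvd_ordCompl hp.out hn0)
    have h3 := Ideal.mul_mem_left _ (algebraMap ℤ_[p] (MonoidAlgebra ℤ_[p] G)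
      ((w⁻¹ : ℤ_[p]ˣ) : ℤ_[p])) h2
    convert h3 using 1
    rw [← mul_assoc]
    congr 1
    have h4 : ((n j : ℕ) : MonoidAlgebra ℤ_[p] G) =
        algebraMap ℤ_[p] _ ((n j : ℕ) : ℤ_[p]) := by rw [map_natCast]
    rw [h4, ← map_mul]
    congr 1
    have h5 : ((n j : ℕ) : ℤ_[p]) = (p : ℤ_[p]) ^ b * (w : ℤ_[p]) := by
      rw [hw, hb]
      exact_mod_cast (Nat.ordProj_mul_ordCompl_eq_self (n j) p).symm
    rw [h5, mul_left_comm, Units.inv_mul, mul_one]
  -- the monomial
  have hmon : ∏ i, (of ℤ_[p] G (g i) - 1) ^ d i =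
      (of ℤ_[p] G (g j) - 1) * ((of ℤ_[p] G (g j) - 1) ^ (d j - 1) *
        ∏ i ∈ Finset.univ.erase j, (of ℤ_[p] G (g i) - 1) ^ d i) := by
    rw [← Finset.mul_prod_erase Finset.univ _ (Finset.mem_univ j), ← mul_assoc, ← pow_succ',
      Nat.sub_add_cancel (Nat.one_le_iff_ne_zero.2 hj0)]
  have hrest : (of ℤ_[p] G (g j) - 1) ^ (d j - 1) *
      ∏ i ∈ Finset.univ.erase j, (of ℤ_[p] G (g i) - 1) ^ d i ∈
      augIdeal ℤ_[p] G ^ (k - 1) := by
    have h1 : (of ℤ_[p] G (g j) - 1) ^ (d j - 1) ∈ augIdeal ℤ_[p] G ^ (d j - 1) :=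
      Ideal.pow_mem_pow (of_sub_one_mem _) _
    have h2 : ∏ i ∈ Finset.univ.erase j, (of ℤ_[p] G (g i) - 1) ^ d i ∈
        augIdeal ℤ_[p] G ^ (∑ i ∈ Finset.univ.erase j, d i) := by
      rw [← Finset.prod_pow_eq_pow_sum]
      exact Ideal.prod_mem_prod fun i _ => Ideal.pow_mem_pow (of_sub_one_mem _) _
    have h3 := Ideal.mul_mem_mul h1 h2
    rw [← pow_add] at h3
    have h4 : d j - 1 + ∑ i ∈ Finset.univ.erase j, d i = k - 1 := by
      have h5 := Finset.add_sum_erase Finset.univ (fun i => d i) (Finset.mem_univ j)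
      omega
    rwa [h4] at h3
  rw [hmon, hc, map_mul]
  have hfin := Ideal.mul_mem_mul hsq hrest
  rw [← pow_add, show 2 + (k - 1) = k + 1 by omega] at hfin
  have hfin' := Ideal.mul_mem_left _ (algebraMap ℤ_[p] (MonoidAlgebra ℤ_[p] G) c) hfin
  convert hfin' using 1
  ring

/-- **Powers of the augmentation ideal of `ℤ_p[G]`, `G` a finite abelian group, of exponent at most
`p + 1` are detected by the homomorphisms to cyclic groups of `p`-power order.** -/
theorem mem_of_tests {G : Type*} [CommGroup G] [Finite G] (k : ℕ) (hkp : k ≤ p + 1)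
    (x : MonoidAlgebra ℤ_[p] G)
    (hx : ∀ (b : ℕ) (φ : G →* Multiplicative (ZMod (p ^ b))),
      mp ℤ_[p] φ x ∈ augIdeal ℤ_[p] (Multiplicative (ZMod (p ^ b))) ^ k) :
    x ∈ augIdeal ℤ_[p] G ^ k := by
  suffices h : ∀ j, j ≤ k → x ∈ augIdeal ℤ_[p] G ^ j from h k le_rfl
  intro j
  induction j with
  | zero => intro _; simp
  | succ j ih =>
    intro hj
    rcases Nat.eq_zero_or_pos j with rfl | hj0
    · rw [zero_add, pow_one, mem_augIdeal]
      have h1 := Ideal.pow_le_pow_right (I := augIdeal ℤ_[p] (Multiplicative (ZMod (p ^ 0))))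
        hj (hx 0 1)
      rw [zero_add, pow_one, mem_augIdeal, aug_mp] at h1
      exact h1
    · exact mem_succ j hj0 (by omega) x (ih (by omega)) fun b φ =>
        Ideal.pow_le_pow_right hj (hx b φ)

end

end Pool.Agent.Q15.MT
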