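import Pool.Agent.Q15.MT.A3

set_option maxHeartbeats 4000000
set_option synthInstance.maxHeartbeats 400000
set_option linter.unusedSectionVars false

/-!
# Powers of the augmentation ideal for groups whose `p`-part has exponent `p`
-/

namespace Pool.Agent.Q15.MT

open MonoidAlgebra

section basic

variable {A : Type*} [CommRing A] {I : Ideal A} {p : ℕ} [hp : Fact p.Prime]

theorem exists_v (S : A) : ∃ v, (1 + S) ^ p = 1 + S ^ p + p * (S + S ^ 2 * v) := by
  have h1 := add_pow_prime_eq hp.out (1 : A) S
  have h2 : S ∣ (∑ k ∈ Finset.Ioo 0 p, (1 : A) ^ (k - 1) * S ^ (p - k - 1) *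
      ((p.choose k / p : ℕ) : A)) - 1 := by
    have hp2 := hp.out.two_le
    have hmem : p - 1 ∈ Finset.Ioo 0 p := Finset.mem_Ioo.2 ⟨by omega, by omega⟩
    rw [← Finset.add_sum_erase _ _ hmem]
    have h3 : (1 : A) ^ (p - 1 - 1) * S ^ (p - (p - 1) - 1) *
        ((p.choose (p - 1) / p : ℕ) : A) = 1 := by
      have e1 : p - (p - 1) - 1 = 0 := by omega
      have e2 : p.choose (p - 1) = p := by
        have h4 := Nat.choose_symm (n := p) (k := 1) (by omega)
        rw [h4, Nat.choose_one_right]
      rw [e1, e2, Nat.div_self (by omega)]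
      simp
    rw [h3, add_sub_cancel_left]
    refine Finset.dvd_sum fun k hk => ?_
    have hk1 := Finset.mem_erase.1 hk
    have hk2 := Finset.mem_Ioo.1 hk1.2
    refine dvd_mul_of_dvd_left (dvd_mul_of_dvd_right (dvd_pow_self S ?_) _) _
    omega
  obtain ⟨v, hv⟩ := h2
  refine ⟨v, ?_⟩
  rw [h1, one_pow]
  linear_combination (p : A) * S * hv

theorem p_mul_mem (S : A) (hS : S ∈ I) (h1 : (1 + S) ^ p = 1) : (p : A) * S ∈ I ^ p := by
  obtain ⟨v, hv⟩ := exists_v (p := p) S
  have h2 : (p : A) * S = -S ^ p - (p * S) * (S * v) := by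
    rw [h1] at hv
    linear_combination -hv
  suffices h : ∀ j, j ≤ p → (p : A) * S ∈ I ^ j from h p le_rfl
  intro j
  induction j with
  | zero => intro _; simp
  | succ j ih =>
    intro hj
    rw [h2]
    refine Ideal.sub_mem _ (Submodule.neg_mem _ ?_) ?_
    · exact Ideal.pow_le_pow_right hj (Ideal.pow_mem_pow hS p)
    · rw [pow_succ]
      exact Ideal.mul_mem_mul (ih (by omega)) (Ideal.mul_mem_right _ _ hS)

theorem swap_rel (S T : A) (hS : S ∈ I) (hT : T ∈ I) (hS1 : (1 + S) ^ p = 1)
    (hT1 : (1 + T) ^ p = 1) : Cg I (p + 1) (S ^ p * T) (S * T ^ p) := by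
  refine ⟨?_, ?_, ?_⟩
  · rw [pow_succ]
    exact Ideal.mul_mem_mul (Ideal.pow_mem_pow hS p) hT
  · rw [pow_succ']
    exact Ideal.mul_mem_mul hS (Ideal.pow_mem_pow hT p)
  · obtain ⟨v, hv⟩ := exists_v (p := p) S
    obtain ⟨w, hw⟩ := exists_v (p := p) T
    rw [hS1] at hv
    rw [hT1] at hw
    have e : S ^ p * T - S * T ^ p = (p * T) * (T * S * w) - (p * S) * (S * T * v) := by
      linear_combination (-T) * hv + S * hw
    rw [e, show p + 1 + 1 = p + 2 by ring, pow_add]
    refine Ideal.sub_mem _ (Ideal.mul_mem_mul (p_mul_mem T hT hT1) ?_)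
      (Ideal.mul_mem_mul (p_mul_mem S hS hS1) ?_)
    · rw [pow_two]
      exact Ideal.mul_mem_right _ _ (Ideal.mul_mem_mul hT hS)
    · rw [pow_two]
      exact Ideal.mul_mem_right _ _ (Ideal.mul_mem_mul hS hT)

variable {ι : Type*} [Fintype ι]

/-- the monomial -/
noncomputable def mon (S : ι → A) (d : ι →₀ ℕ) : A := ∏ i, S i ^ d i

theorem mon_add (S : ι → A) (d e : ι →₀ ℕ) : mon S (d + e) = mon S d * mon S e := by
  rw [mon, mon, mon, ← Finset.prod_mul_distrib]
  exact Finset.prod_congr rfl fun i _ => by rw [Finsupp.add_apply, pow_add]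

theorem mon_single (S : ι → A) (i : ι) (a : ℕ) : mon S (Finsupp.single i a) = S i ^ a := by
  classical
  rw [mon, Finset.prod_eq_single i]
  · rw [Finsupp.single_eq_same]
  · intro j _ hj
    rw [Finsupp.single_eq_of_ne hj, pow_zero]
  · intro h; exact absurd (Finset.mem_univ i) h

theorem mon_mem (S : ι → A) (hS : ∀ i, S i ∈ I) (d : ι →₀ ℕ) : mon S d ∈ I ^ (∑ i, d i) := by
  rw [mon, ← Finset.prod_pow_eq_pow_sum]
  exact Ideal.prod_mem_prod fun i _ => Ideal.pow_mem_pow (hS i) _

/-- the exponent in `0, …, p - 1` with the same power function on `𝔽_p` -/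
def red (p a : ℕ) : ℕ := if a = 0 then 0 else (a - 1) % (p - 1) + 1

theorem red_zero_iff (a : ℕ) : red p a = 0 ↔ a = 0 := by
  rw [red]
  by_cases h : a = 0
  · simp [h]
  · simp [h]

theorem red_le (a : ℕ) : red p a ≤ p - 1 := by
  have hp2 := hp.out.two_le
  rw [red]
  by_cases h : a = 0
  · rw [if_pos h]; omega
  · rw [if_neg h]
    have := Nat.mod_lt (a - 1) (show 0 < p - 1 by omega)
    omega

theorem dvd_of_red {a b : ℕ} (hab : b ≤ a) (h : red p a = red p b) : p - 1 ∣ a - b := by
  by_cases ha : a = 0
  · have : b = 0 := by omega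
    rw [ha, this]; exact dvd_zero _
  · have hb : b ≠ 0 := fun hb => ha ((red_zero_iff (p := p) a).1 (by
      rw [h, hb]; exact (red_zero_iff (p := p) 0).2 rfl))
    rw [red, red, if_neg ha, if_neg hb] at h
    have h1 : (a - 1) % (p - 1) = (b - 1) % (p - 1) := by omega
    have h2 : b - 1 ≡ a - 1 [MOD p - 1] := h1.symm
    have h3 := (Nat.modEq_iff_dvd' (by omega)).1 h2
    have h4 : a - 1 - (b - 1) = a - b := by omega
    rwa [h4] at h3

/-- Monomials of the same degree with the same reduced exponents are congruent. -/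
theorem mon_cg (S : ι → A) (hS : ∀ i, S i ∈ I) (h1 : ∀ i, (1 + S i) ^ p = 1) (k : ℕ)
    (N : ℕ) (d d' : ι →₀ ℕ) (hN : ∑ i, (d i - d' i) = N) (hd : ∑ i, d i = k)
    (hd' : ∑ i, d' i = k) (hr : ∀ i, red p (d i) = red p (d' i)) :
    Cg I k (mon S d) (mon S d') := by
  classical
  induction N using Nat.strong_induction_on generalizing d with
  | _ N ih =>
    by_cases heq : d = d'
    · rw [heq, ← hd']
      exact Cg.refl (mon_mem S hS d')
    · -- indices where `d` is larger and smaller
      obtain ⟨j, hj⟩ : ∃ j, d' j < d j := by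
        by_contra hcon
        push Not at hcon
        apply heq
        ext i
        have := (Finset.sum_eq_sum_iff_of_le fun i _ => hcon i).1 (by rw [hd, hd'])
        exact this i (Finset.mem_univ i)
      obtain ⟨i, hi⟩ : ∃ i, d i < d' i := by
        by_contra hcon
        push Not at hcon
        have := (Finset.sum_eq_sum_iff_of_le fun i _ => hcon i).1 (by rw [hd, hd'])
        exact absurd (this j (Finset.mem_univ j)) (by omega)
      have hij : i ≠ j := fun h => by rw [h] at hi; omega
      have hp2 := hp.out.two_le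
      -- sizes
      have hj1 : p - 1 ∣ d j - d' j := dvd_of_red (by omega) (hr j)
      have hj2 : p - 1 ≤ d j - d' j := Nat.le_of_dvd (by omega) hj1
      have hj3 : d' j ≠ 0 := fun h0 => by
        have := (red_zero_iff (p := p) (d' j)).2 h0
        rw [← hr j, red_zero_iff] at this
        omega
      have hi1 : p - 1 ∣ d' i - d i := dvd_of_red (by omega) (hr i).symm
      have hi2 : p - 1 ≤ d' i - d i := Nat.le_of_dvd (by omega) hi1
      have hi3 : d i ≠ 0 := fun h0 => by
        have := (red_zero_iff (p := p) (d i)).2 h0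
        rw [hr i, red_zero_iff] at this
        omega
      -- the exponents after one exchange
      set d0 : ι →₀ ℕ := d - (Finsupp.single j p + Finsupp.single i 1) with hd0
      have hle : Finsupp.single j p + Finsupp.single i 1 ≤ d := by
        intro l
        rw [Finsupp.add_apply]
        by_cases hl : l = j
        · rw [hl, Finsupp.single_eq_same, Finsupp.single_eq_of_ne (Ne.symm hij)]
          omega
        · rw [Finsupp.single_eq_of_ne hl]
          by_cases hl' : l = i
          · rw [hl', Finsupp.single_eq_same]; omega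
          · rw [Finsupp.single_eq_of_ne hl']; omega
      have hdd : d = d0 + (Finsupp.single j p + Finsupp.single i 1) := (tsub_add_cancel_of_le hle).symm
      set d1 : ι →₀ ℕ := d0 + (Finsupp.single j 1 + Finsupp.single i p) with hd1
      have hd1j : d1 j = d j - (p - 1) := by
        rw [hd1, Finsupp.add_apply, Finsupp.add_apply, Finsupp.single_eq_same,
          Finsupp.single_eq_of_ne (Ne.symm hij), hd0, Finsupp.tsub_apply, Finsupp.add_apply,
          Finsupp.single_eq_same, Finsupp.single_eq_of_ne (Ne.symm hij)]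
        omega
      have hd1i : d1 i = d i + (p - 1) := by
        rw [hd1, Finsupp.add_apply, Finsupp.add_apply, Finsupp.single_eq_same,
          Finsupp.single_eq_of_ne hij, hd0, Finsupp.tsub_apply, Finsupp.add_apply,
          Finsupp.single_eq_same, Finsupp.single_eq_of_ne hij]
        omega
      have hd1l : ∀ l, l ≠ j → l ≠ i → d1 l = d l := by
        intro l hlj hli
        rw [hd1, Finsupp.add_apply, Finsupp.add_apply, Finsupp.single_eq_of_ne hlj,
          Finsupp.single_eq_of_ne hli, hd0, Finsupp.tsub_apply, Finsupp.add_apply,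
          Finsupp.single_eq_of_ne hlj, Finsupp.single_eq_of_ne hli]
        omega
      have hsumd0 : ∑ l, d0 l + (p + 1) = k := by
        rw [← hd]
        conv_rhs => rw [hdd]
        simp only [Finsupp.add_apply, Finset.sum_add_distrib]
        rw [Finset.sum_eq_single j (fun l _ hl => Finsupp.single_eq_of_ne hl) (by simp),
          Finset.sum_eq_single i (fun l _ hl => Finsupp.single_eq_of_ne hl) (by simp),
          Finsupp.single_eq_same, Finsupp.single_eq_same]
      have hstep : Cg I k (mon S d) (mon S d1) := by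
        have h2 := swap_rel (p := p) (S j) (S i) (hS j) (hS i) (h1 j) (h1 i)
        have h3 := (Cg.refl (mon_mem S hS d0)).mul h2
        rw [hsumd0] at h3
        have e1 : mon S d = mon S d0 * (S j ^ p * S i) := by
          conv_lhs => rw [hdd]
          rw [mon_add, mon_add, mon_single, mon_single, pow_one]
        have e2 : mon S d1 = mon S d0 * (S j * S i ^ p) := by
          rw [hd1, mon_add, mon_add, mon_single, mon_single, pow_one]
        rw [e1, e2]
        exact h3
      have hsumd1 : ∑ l, d1 l = k := by
        rw [← hsumd0, hd1]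
        simp only [Finsupp.add_apply, Finset.sum_add_distrib]
        rw [Finset.sum_eq_single j (fun l _ hl => Finsupp.single_eq_of_ne hl) (by simp),
          Finset.sum_eq_single i (fun l _ hl => Finsupp.single_eq_of_ne hl) (by simp),
          Finsupp.single_eq_same, Finsupp.single_eq_same, add_comm 1 p]
      have hred1 : ∀ l, red p (d1 l) = red p (d' l) := by
        intro l
        by_cases hlj : l = j
        · rw [hlj, hd1j, ← hr j, red, red, if_neg (by omega), if_neg (by omega)]
          congr 1
          have : d j - 1 = (d j - (p - 1) - 1) + (p - 1) := by omega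
          rw [this, Nat.add_mod_right]
        · by_cases hli : l = i
          · rw [hli, hd1i, ← hr i, red, red, if_neg (by omega), if_neg (by omega)]
            congr 1
            have : d i + (p - 1) - 1 = (d i - 1) + (p - 1) := by omega
            rw [this, Nat.add_mod_right]
          · rw [hd1l l hlj hli, hr l]
      have hlt : ∑ l, (d1 l - d' l) < N := by
        rw [← hN]
        refine Finset.sum_lt_sum (fun l _ => ?_) ⟨j, Finset.mem_univ j, ?_⟩
        · by_cases hlj : l = j
          · rw [hlj, hd1j]; omega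
          · by_cases hli : l = i
            · rw [hli, hd1i]; omega
            · rw [hd1l l hlj hli]
        · rw [hd1j]; omega
      exact hstep.trans (ih _ hlt d1 rfl hsumd1 hred1)

end basic

end Pool.Agent.Q15.MT
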