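import Pool.Agent.Q15.MT.A4

set_option maxHeartbeats 4000000
set_option synthInstance.maxHeartbeats 400000
set_option linter.unusedSectionVars false

/-!
# Powers of the augmentation ideal for groups whose `p`-part has exponent `p`, II
-/

namespace Pool.Agent.Q15.MT

open MonoidAlgebra

variable {p : ℕ} [hp : Fact p.Prime]

theorem pow_red (v : ZMod p) (a : ℕ) : v ^ red p a = v ^ a := by
  rw [red]
  by_cases ha : a = 0
  · rw [if_pos ha, ha]
  · rw [if_neg ha]
    obtain ⟨b, rfl⟩ : ∃ b, a = b + 1 := ⟨a - 1, by omega⟩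
    rw [Nat.add_sub_cancel, pow_succ, pow_succ]
    by_cases hv : v = 0
    · rw [hv, mul_zero, mul_zero]
    · congr 1
      conv_rhs => rw [← Nat.div_add_mod b (p - 1), pow_add, pow_mul,
        ZMod.pow_card_sub_one_eq_one hv, one_pow, one_mul]

/-- combinations of monomials in which the sums of the coefficients over the classes are divisible
by `p` -/
theorem sum_mem {A : Type*} [CommRing A] {I : Ideal A} {ι : Type*} [Fintype ι] (S : ι → A)
    (hS : ∀ i, S i ∈ I) (h1 : ∀ i, (1 + S i) ^ p = 1) (k : ℕ) (hk : 0 < k)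
    (D : Finset (ι →₀ ℕ)) (hD : ∀ d ∈ D, ∑ i, d i = k) (c : (ι →₀ ℕ) → A)
    (hc : ∀ e : ι → ℕ, ∃ z : A, ∑ d ∈ D with (fun i => red p (d i)) = e, c d = p * z) :
    ∑ d ∈ D, c d * mon S d ∈ I ^ (k + 1) := by
  classical
  rw [← Finset.sum_fiberwise_of_maps_to (s := D) (t := D.image fun d i => red p (d i))
    (g := fun d i => red p (d i)) (fun d hd => Finset.mem_image_of_mem _ hd)]
  refine Ideal.sum_mem _ fun e he => ?_
  obtain ⟨d0, hd0, rfl⟩ := Finset.mem_image.1 he
  obtain ⟨z, hz⟩ := hc fun i => red p (d0 i)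
  have e1 : ∑ d ∈ D with (fun i => red p (d i)) = (fun i => red p (d0 i)), c d * mon S d =
      ∑ d ∈ D with (fun i => red p (d i)) = (fun i => red p (d0 i)), c d * (mon S d - mon S d0) +
      z * (p * mon S d0) := by
    have e2 : z * (p * mon S d0) = (p * z) * mon S d0 := by ring
    rw [e2, ← hz, Finset.sum_mul, ← Finset.sum_add_distrib]
    exact Finset.sum_congr rfl fun d _ => by ring
  rw [e1]
  refine Ideal.add_mem _ (Ideal.sum_mem _ fun d hd => ?_) (Ideal.mul_mem_left _ _ ?_)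
  · obtain ⟨hdD, hde⟩ := Finset.mem_filter.1 hd
    exact Ideal.mul_mem_left _ _ (mon_cg S hS h1 k _ d d0 rfl (hD d hdD) (hD d0 hd0)
      fun i => congrFun hde i).2.2
  · obtain ⟨i, hi⟩ : ∃ i, d0 i ≠ 0 := by
      by_contra hcon
      push Not at hcon
      have := hD d0 hd0
      rw [Finset.sum_eq_zero fun i _ => hcon i] at this
      omega
    have e3 : d0 = (d0 - Finsupp.single i 1) + Finsupp.single i 1 := by
      refine (tsub_add_cancel_of_le ?_).symm
      intro l
      by_cases hl : l = i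
      · rw [hl, Finsupp.single_eq_same]; omega
      · rw [Finsupp.single_eq_of_ne hl]; omega
    have e4 : ∑ l, (d0 - Finsupp.single i 1 : ι →₀ ℕ) l = k - 1 := by
      have := hD d0 hd0
      rw [e3] at this
      simp only [Finsupp.add_apply, Finset.sum_add_distrib] at this
      rw [Finset.sum_eq_single (f := fun l => (Finsupp.single i 1) l) i
        (fun l _ hl => Finsupp.single_eq_of_ne hl) (by simp), Finsupp.single_eq_same] at this
      omega
    rw [e3, mon_add, mon_single, pow_one, mul_left_comm]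
    have h2 := Ideal.mul_mem_mul (mon_mem S hS (d0 - Finsupp.single i 1))
      (Ideal.pow_le_pow_right hp.out.two_le (p_mul_mem (p := p) (S i) (hS i) (h1 i)))
    rw [e4, ← pow_add, show k - 1 + 2 = k + 1 by omega] at h2
    exact h2

/-- One step, for groups without elements of order `p ^ 2`. -/
theorem mem_succ' {G : Type*} [CommGroup G] [Finite G] (hG : ∀ x : G, x ^ p ^ 2 = 1 → x ^ p = 1)
    (k : ℕ) (hk : 0 < k) (x : MonoidAlgebra ℤ_[p] G) (hxk : x ∈ augIdeal ℤ_[p] G ^ k)
    (hx : ∀ φ : G →* Multiplicative (ZMod (p ^ 1)),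
      mp ℤ_[p] φ x ∈ augIdeal ℤ_[p] (Multiplicative (ZMod (p ^ 1))) ^ (k + 1)) :
    x ∈ augIdeal ℤ_[p] G ^ (k + 1) := by
  classical
  obtain ⟨ι, _, n, hn, ⟨e⟩⟩ := CommGroup.equiv_prod_multiplicative_zmod_of_finite G
  set g : ι → G := gen e with hg
  obtain ⟨f, hf, hxf⟩ := exists_poly (R := ℤ_[p]) g (closure_gens e hn) k x hxk
  have hn0 : ∀ i, n i ≠ 0 := fun i => by have := hn i; omega
  have hgn : ∀ i, g i ^ n i = 1 := fun i => by
    rw [hg, gen, ← map_pow, ← Pi.mulSingle_pow, ← ofAdd_nsmul, nsmul_eq_mul, mul_one,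
      ZMod.natCast_self, ofAdd_zero, Pi.mulSingle_one, map_one]
  -- the parts of the orders prime to `p`
  set w : ι → ℕ := fun i => n i / p ^ (n i).factorization p with hw
  have hwu : ∀ i, ∃ u : ℤ_[p]ˣ, (u : ℤ_[p]) = w i := fun i =>
    isUnit_of_not_dvd (p := p) (Nat.not_dvd_ordCompl hp.out (hn0 i))
  choose u hu using hwu
  have hv1 : ∀ i, (n i).factorization p ≤ 1 := by
    intro i
    by_contra hcon
    push Not at hcon
    have hdvd : p ^ 2 ∣ n i := dvd_trans (pow_dvd_pow p hcon) (Nat.ordProj_dvd (n i) p)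
    obtain ⟨q, hq⟩ := hdvd
    have h1 : (g i ^ q) ^ p ^ 2 = 1 := by rw [← pow_mul, mul_comm, ← hq, hgn]
    have h2 := hG _ h1
    rw [← pow_mul, hg, gen, ← map_pow, ← Pi.mulSingle_pow, ← ofAdd_nsmul, nsmul_eq_mul,
      mul_one] at h2
    have h3 := (MulEquiv.map_eq_one_iff e.symm).1 h2
    rw [Pi.mulSingle_eq_one_iff] at h3
    have h4 : ((q * p : ℕ) : ZMod (n i)) = 0 := h3
    rw [ZMod.natCast_eq_zero_iff, hq] at h4
    have hq0 : 0 < q := Nat.pos_of_ne_zero fun h0 => hn0 i (by rw [hq, h0, mul_zero])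
    have h5 := Nat.le_of_dvd (Nat.mul_pos hq0 hp.out.pos) h4
    have h6 := hp.out.two_le
    have h7 : q * p < p ^ 2 * q := by
      rw [pow_two, mul_comm q p, mul_assoc]
      exact Nat.mul_lt_mul_of_pos_left (by nlinarith) hp.out.pos
    omega
  set S : ι → MonoidAlgebra ℤ_[p] G := fun i => of ℤ_[p] G (g i ^ w i) - 1 with hSdef
  have hS : ∀ i, S i ∈ augIdeal ℤ_[p] G := fun i => of_sub_one_mem _
  have hSp : ∀ i, (1 + S i) ^ p = 1 := by
    intro i
    simp only [hSdef, add_sub_cancel]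
    rw [← map_pow, ← pow_mul]
    have : n i ∣ w i * p := by
      have h1 := Nat.ordProj_mul_ordCompl_eq_self (n i) p
      have h2 : p ^ (n i).factorization p ∣ p := by
        conv_rhs => rw [← pow_one p]
        exact pow_dvd_pow p (hv1 i)
      rw [mul_comm]
      conv_lhs => rw [← h1]
      exact Nat.mul_dvd_mul_right h2 _
    obtain ⟨z, hz⟩ := this
    rw [hz, pow_mul, hgn, one_pow, map_one]
  have hS0 : ∀ i, ¬ p ∣ n i → S i = 0 := by
    intro i hi
    have h1 : (n i).factorization p = 0 := Nat.factorization_eq_zero_of_not_dvd hi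
    simp only [hSdef, hw, h1, pow_zero, Nat.div_one, hgn, map_one, sub_self]
  -- the generators and the elements `S i`
  have hTS : ∀ i, Cg (augIdeal ℤ_[p] G) 1 (of ℤ_[p] G (g i) - 1)
      (algebraMap ℤ_[p] _ ((u i)⁻¹ : ℤ_[p]ˣ) * S i) := by
    intro i
    refine ⟨?_, ?_, ?_⟩
    · rw [pow_one]; exact of_sub_one_mem _
    · rw [pow_one]; exact Ideal.mul_mem_left _ _ (hS i)
    · have h1 := of_pow_sub (R := ℤ_[p]) (g i) (w i)
      have h2 := Submodule.neg_mem _ (Ideal.mul_mem_left _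
        (algebraMap ℤ_[p] (MonoidAlgebra ℤ_[p] G) ((u i)⁻¹ : ℤ_[p]ˣ)) h1)
      convert h2 using 1
      have h3 : algebraMap ℤ_[p] (MonoidAlgebra ℤ_[p] G) ((u i)⁻¹ : ℤ_[p]ˣ) *
          ((w i : ℕ) : MonoidAlgebra ℤ_[p] G) = 1 := by
        have : ((w i : ℕ) : MonoidAlgebra ℤ_[p] G) = algebraMap ℤ_[p] _ ((w i : ℕ) : ℤ_[p]) := by
          rw [map_natCast]
        rw [this, ← map_mul, ← hu, Units.inv_mul, map_one]
      simp only [hSdef]
      linear_combination (-(of ℤ_[p] G (g i) - 1)) * h3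
  have hxf' := hxf.trans (aeval_congr _ _ hTS k f hf)
  suffices h : MvPolynomial.aeval (fun i => algebraMap ℤ_[p] (MonoidAlgebra ℤ_[p] G)
      ((u i)⁻¹ : ℤ_[p]ˣ) * S i) f ∈ augIdeal ℤ_[p] G ^ (k + 1) by
    have := Ideal.add_mem _ hxf'.2.2 h
    rwa [sub_add_cancel] at this
  set c' : (ι →₀ ℕ) → ℤ_[p] := fun d => f.coeff d * ∏ i, (((u i)⁻¹ : ℤ_[p]ˣ) : ℤ_[p]) ^ d i
    with hc'
  set D := f.support.filter fun d => ∀ i, d i ≠ 0 → p ∣ n i with hD
  have hsum : MvPolynomial.aeval (fun i => algebraMap ℤ_[p] (MonoidAlgebra ℤ_[p] G)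
      ((u i)⁻¹ : ℤ_[p]ˣ) * S i) f =
      ∑ d ∈ D, algebraMap ℤ_[p] (MonoidAlgebra ℤ_[p] G) (c' d) * mon S d := by
    rw [MvPolynomial.aeval_def, MvPolynomial.eval₂_eq', hD,
      ← Finset.sum_filter_add_sum_filter_not f.support (fun d => ∀ i, d i ≠ 0 → p ∣ n i)]
    have h0 : ∑ d ∈ f.support.filter (fun d => ¬ ∀ i, d i ≠ 0 → p ∣ n i),
        algebraMap ℤ_[p] (MonoidAlgebra ℤ_[p] G) (f.coeff d) *
          ∏ i, (algebraMap ℤ_[p] (MonoidAlgebra ℤ_[p] G) ((u i)⁻¹ : ℤ_[p]ˣ) * S i) ^ d i = 0 := by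
      refine Finset.sum_eq_zero fun d hd => ?_
      obtain ⟨_, hd⟩ := Finset.mem_filter.1 hd
      push Not at hd
      obtain ⟨i, hi, hi'⟩ := hd
      rw [Finset.prod_eq_zero (Finset.mem_univ i), mul_zero]
      rw [hS0 i hi', mul_zero, zero_pow hi]
    rw [h0, add_zero]
    refine Finset.sum_congr rfl fun d _ => ?_
    rw [hc', mon]
    simp only [mul_pow, Finset.prod_mul_distrib, map_mul, map_prod, map_pow]
    ring
  rw [hsum]
  refine sum_mem (p := p) S hS hSp k hk D (fun d hd => sum_eq_of_homogeneous hf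
    (Finset.mem_filter.1 hd).1) (fun d => algebraMap ℤ_[p] _ (c' d)) fun r => ?_
  -- the sums over the classes are divisible by `p`
  have hker : ∀ x : ℤ_[p], PadicInt.toZMod x = 0 ↔ (p : ℤ_[p]) ∣ x := fun x => by
    rw [← RingHom.mem_ker, PadicInt.ker_toZMod, PadicInt.maximalIdeal_eq_span_p,
      Ideal.mem_span_singleton]
  set redF : (ι →₀ ℕ) → (ι →₀ ℕ) := fun d => Finsupp.equivFunOnFinite.symm fun i => red p (d i)
    with hredF
  set G' : MvPolynomial ι (ZMod p) := ∑ d ∈ D, MvPolynomial.monomial (redF d)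
    (PadicInt.toZMod (c' d)) with hG'
  have hG0 : G' = 0 := by
    apply MvPolynomial.eq_zero_of_eval_eq_zero ι (ZMod p)
    · intro v
      -- the value of `f`
      set y : ι → ZMod p := fun i => if p ∣ n i then
        PadicInt.toZMod (((u i)⁻¹ : ℤ_[p]ˣ) : ℤ_[p]) * v i else 0 with hy
      have h1 := dvd_value e k hk x f hf hxf 1 hx (fun i => ((y i).val : ℤ)) (fun i => by
        by_cases hi : p ∣ n i
        · rw [pow_one]
          exact dvd_mul_of_dvd_left (by exact_mod_cast hi) _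
        · simp only [hy, if_neg hi, ZMod.val_zero]
          simp)
      rw [pow_one, ← hker, MvPolynomial.eval_eq', map_sum] at h1
      rw [hG', map_sum, ← h1, hD, ← Finset.sum_filter_add_sum_filter_not f.support
        (fun d => ∀ i, d i ≠ 0 → p ∣ n i)]
      have hcast : ∀ i, PadicInt.toZMod (((y i).val : ℤ) : ℤ_[p]) = y i := fun i => by simp
      have h0 : ∑ d ∈ f.support.filter (fun d => ¬ ∀ i, d i ≠ 0 → p ∣ n i),
          PadicInt.toZMod (f.coeff d * ∏ i, (((y i).val : ℤ) : ℤ_[p]) ^ d i) = 0 := by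
        refine Finset.sum_eq_zero fun d hd => ?_
        obtain ⟨_, hd⟩ := Finset.mem_filter.1 hd
        push Not at hd
        obtain ⟨i, hi, hi'⟩ := hd
        rw [Finset.prod_eq_zero (Finset.mem_univ i), mul_zero, map_zero]
        simp only [hy, if_neg hi', ZMod.val_zero]
        simp [hi]
      rw [h0, add_zero]
      refine Finset.sum_congr rfl fun d hd => ?_
      obtain ⟨_, hd⟩ := Finset.mem_filter.1 hd
      rw [MvPolynomial.eval_monomial, Finsupp.prod_fintype _ _ (by simp), hc']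
      simp only [map_mul, map_prod, map_pow]
      rw [mul_assoc, ← Finset.prod_mul_distrib]
      congr 1
      refine Finset.prod_congr rfl fun i _ => ?_
      have e1 : (redF d) i = red p (d i) := rfl
      rw [e1, pow_red, hcast]
      by_cases h0 : d i = 0
      · rw [h0]; simp
      · simp only [hy, if_pos (hd i h0)]
        rw [mul_pow]
    · rw [MvPolynomial.mem_restrictDegree]
      intro s hs i
      rw [ZMod.card]
      by_contra hcon
      apply MvPolynomial.mem_support_iff.1 hs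
      rw [hG', MvPolynomial.coeff_sum]
      refine Finset.sum_eq_zero fun d _ => ?_
      rw [MvPolynomial.coeff_monomial, if_neg]
      intro hds
      apply hcon
      rw [← hds]
      exact red_le (p := p) (d i)
  have h2 := congrArg (MvPolynomial.coeff (Finsupp.equivFunOnFinite.symm r)) hG0
  rw [hG', MvPolynomial.coeff_sum, MvPolynomial.coeff_zero] at h2
  simp only [MvPolynomial.coeff_monomial] at h2
  rw [← Finset.sum_filter, ← map_sum, hker] at h2
  obtain ⟨z, hz⟩ := h2
  refine ⟨algebraMap ℤ_[p] _ z, ?_⟩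
  rw [← map_sum]
  have e2 : (D.filter fun d => (fun i => red p (d i)) = r) =
      D.filter fun d => redF d = Finsupp.equivFunOnFinite.symm r := by
    refine Finset.filter_congr fun d _ => ?_
    simp only [hredF]
    exact (Equiv.apply_eq_iff_eq _).symm
  rw [e2, hz, map_mul, map_natCast]

/-- **If `G` has no elements of order `p ^ 2`, all powers of the augmentation ideal of `ℤ_p[G]` are
detected by the homomorphisms to the cyclic group of order `p`.** -/
theorem mem_of_tests' {G : Type*} [CommGroup G] [Finite G]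
    (hG : ∀ x : G, x ^ p ^ 2 = 1 → x ^ p = 1) (k : ℕ) (x : MonoidAlgebra ℤ_[p] G)
    (hx : ∀ φ : G →* Multiplicative (ZMod (p ^ 1)),
      mp ℤ_[p] φ x ∈ augIdeal ℤ_[p] (Multiplicative (ZMod (p ^ 1))) ^ k) :
    x ∈ augIdeal ℤ_[p] G ^ k := by
  suffices h : ∀ j, j ≤ k → x ∈ augIdeal ℤ_[p] G ^ j from h k le_rfl
  intro j
  induction j with
  | zero => intro _; simp
  | succ j ih =>
    intro hj
    rcases Nat.eq_zero_or_pos j with rfl | hj0
    · have h1 : mp ℤ_[p] (1 : G →* Multiplicative (ZMod (p ^ 1))) x ∈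
          augIdeal ℤ_[p] (Multiplicative (ZMod (p ^ 1))) :=
        Ideal.pow_le_self (by omega) (hx 1)
      rw [mem_augIdeal, aug_mp] at h1
      rw [zero_add, pow_one, mem_augIdeal]
      exact h1
    · exact mem_succ' hG j hj0 x (ih (by omega)) fun φ =>
        Ideal.pow_le_pow_right hj (hx φ)

end Pool.Agent.Q15.MT
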