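import Pool.Agent.Q15.MT.Defs

set_option maxHeartbeats 4000000
set_option synthInstance.maxHeartbeats 400000
set_option linter.unusedSectionVars false

/-!
# Characters, Gauss sums and `L`-functions for a divisor of the conductor
-/

namespace Pool.Agent.Q15.MT

open Complex

section chars

variable {G : Type} [CommGroup G] [Finite G]

/-- the value of a character at an element of the group ring -/
noncomputable def ev (χ : G →* ℂˣ) : MonoidAlgebra ℚ G →ₐ[ℚ] ℂ :=
  MonoidAlgebra.lift ℚ ℂ G ((Units.coeHom ℂ).comp χ)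

theorem ev_of (χ : G →* ℂˣ) (g : G) : ev χ (MonoidAlgebra.of ℚ G g) = χ g := by
  rw [ev, MonoidAlgebra.lift_of]; rfl

theorem ev_eq (χ : G →* ℂˣ) (t : MonoidAlgebra ℚ G) :
    ev χ t = t.coeff.sum fun g c => (c : ℂ) * (χ g : ℂ) := by
  rw [ev, MonoidAlgebra.lift_apply]
  refine Finsupp.sum_congr fun g _ => ?_
  rw [Algebra.smul_def]
  rfl

/-- an element of the group ring is determined by the values of the characters -/
theorem ext_of_ev (t : MonoidAlgebra ℚ G) (h : ∀ χ : G →* ℂˣ, ev χ t = 0) : t = 0 := by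
  classical
  have : Fintype G := Fintype.ofFinite G
  ext g
  have h1 : ∑ ψ : AddChar (Additive G) ℂ,
      (∑ x : G, (t.coeff x : ℂ) * ψ (Additive.ofMul x)) * ψ (Additive.ofMul g⁻¹) = 0 := by
    refine Finset.sum_eq_zero fun ψ _ => ?_
    let χ : G →* ℂˣ := MonoidHom.toHomUnits
      { toFun := fun x => ψ (Additive.ofMul x)
        map_one' := by rw [ofMul_one, AddChar.map_zero_eq_one]
        map_mul' := fun x y => by rw [ofMul_mul, AddChar.map_add_eq_mul] }
    have h2 := h χ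
    rw [ev_eq, Finsupp.sum_fintype _ _ (by simp)] at h2
    have h3 : ∀ x, (χ x : ℂ) = ψ (Additive.ofMul x) := fun x => by
      rw [MonoidHom.coe_toHomUnits]; rfl
    simp only [h3] at h2
    rw [h2, zero_mul]
  simp only [Finset.sum_mul, mul_assoc, ← AddChar.map_add_eq_mul, ← ofMul_mul] at h1
  rw [Finset.sum_comm] at h1
  simp only [← Finset.mul_sum, AddChar.sum_apply_eq_ite] at h1
  rw [Finset.sum_eq_single g] at h1
  · rw [mul_inv_cancel, ofMul_one, if_pos rfl] at h1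
    have h4 : (Fintype.card (Additive G) : ℂ) ≠ 0 := by exact_mod_cast Fintype.card_ne_zero
    have h5 : (t.coeff g : ℂ) = 0 := by
      rcases mul_eq_zero.1 h1 with h | h
      · exact h
      · exact absurd h h4
    exact_mod_cast h5
  · intro x _ hx
    rw [if_neg, mul_zero]
    intro h0
    apply hx
    have : x * g⁻¹ = 1 := h0
    exact mul_inv_eq_one.1 this
  · intro hg; exact absurd (Finset.mem_univ g) hg

end chars

section gauss

theorem gauss_eq (m : ℕ) [NeZero m] (χ : (ZMod m)ˣ →* ℂˣ) :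
    gauss m χ = ∑ σ : (ZMod m)ˣ, (χ σ : ℂ) * ZMod.stdAddChar (σ : ZMod m) := by
  refine Finset.sum_congr rfl fun σ _ => ?_
  congr 1
  have := ZMod.stdAddChar_coe (N := m) (((σ : ZMod m).val : ℤ))
  rw [Int.cast_natCast, ZMod.natCast_zmod_val] at this
  rw [this]
  push_cast
  ring_nf

theorem frob_coe {m l : ℕ} (h : l.Coprime m) : ((frob m l : (ZMod m)ˣ) : ZMod m) = l := by
  rw [frob, dif_pos h, ZMod.coe_unitOfCoprime]

theorem unitsMap_frob {m m' l : ℕ} (h : m' ∣ m) (hl : l.Coprime m) :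
    ZMod.unitsMap h (frob m l) = frob m' l := by
  ext
  rw [frob_coe (Nat.Coprime.coprime_dvd_right h hl), ZMod.unitsMap_def, Units.coe_map]
  simp [frob_coe hl]

variable {n l : ℕ}

/-- the additive character for a product of coprime moduli -/
theorem stdAddChar_mul [NeZero n] [NeZero l] [NeZero (n * l)] (A B : ℤ)
    (hAB : A * l + B * n = 1) (x : ZMod (n * l)) :
    ZMod.stdAddChar x = ZMod.stdAddChar ((A : ZMod n) * ZMod.castHom (dvd_mul_right n l) (ZMod n) x) *
      ZMod.stdAddChar ((B : ZMod l) * ZMod.castHom (dvd_mul_left l n) (ZMod l) x) := by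
  obtain ⟨k, rfl⟩ : ∃ k : ℤ, (k : ZMod (n * l)) = x := ⟨x.cast, ZMod.intCast_zmod_cast x⟩
  rw [show ZMod.castHom (dvd_mul_right n l) (ZMod n) (k : ZMod (n * l)) = (k : ZMod n) from
      map_intCast _ k,
    show ZMod.castHom (dvd_mul_left l n) (ZMod l) (k : ZMod (n * l)) = (k : ZMod l) from
      map_intCast _ k, ← Int.cast_mul, ← Int.cast_mul, ZMod.stdAddChar_coe,
    ZMod.stdAddChar_coe, ZMod.stdAddChar_coe, ← Complex.exp_add]
  congr 1
  have hn : (n : ℂ) ≠ 0 := by exact_mod_cast NeZero.ne n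
  have hl : (l : ℂ) ≠ 0 := by exact_mod_cast NeZero.ne l
  have h : (A : ℂ) * l + B * n = 1 := by exact_mod_cast hAB
  push_cast
  field_simp
  linear_combination (-1 : ℂ) * k * h

theorem sum_units_stdAddChar [Fact l.Prime] (B : ℤ) (hB : IsUnit (B : ZMod l)) :
    ∑ y : (ZMod l)ˣ, ZMod.stdAddChar ((B : ZMod l) * (y : ZMod l)) = (-1 : ℂ) := by
  obtain ⟨b, hb⟩ := hB
  rw [← hb]
  have h1 : ∑ y : (ZMod l)ˣ, ZMod.stdAddChar ((b : ZMod l) * (y : ZMod l)) =
      ∑ y : (ZMod l)ˣ, (ZMod.stdAddChar (y : ZMod l) : ℂ) := by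
    refine Fintype.sum_equiv (Equiv.mulLeft b) _ _ fun y => ?_
    simp
  have hl : l ≠ 0 := (Fact.out : l.Prime).ne_zero
  have : NeZero l := ⟨hl⟩
  have h2 : ∑ y : ZMod l, (ZMod.stdAddChar y : ℂ) = 0 := by
    apply AddChar.sum_eq_zero_of_ne_one
    intro h
    have h3 := ZMod.isPrimitive_stdAddChar l (one_ne_zero : (1 : ZMod l) ≠ 0)
    apply h3
    rw [AddChar.mulShift_one]
    exact h
  rw [h1]
  have h3 : ∑ y : ZMod l, (ZMod.stdAddChar y : ℂ) =
      ZMod.stdAddChar (0 : ZMod l) + ∑ y : (ZMod l)ˣ, (ZMod.stdAddChar (y : ZMod l) : ℂ) := by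
    classical
    rw [← Finset.add_sum_erase Finset.univ _ (Finset.mem_univ (0 : ZMod l))]
    congr 1
    symm
    refine Finset.sum_bij (fun (y : (ZMod l)ˣ) _ => (y : ZMod l)) ?_ ?_ ?_ ?_
    · intro y _
      exact Finset.mem_erase.2 ⟨y.ne_zero, Finset.mem_univ _⟩
    · intro y _ z _ h
      exact Units.ext h
    · intro y hy
      exact ⟨Units.mk0 y (Finset.mem_erase.1 hy).1, Finset.mem_univ _, rfl⟩
    · intro y _; rfl
  rw [h2, AddChar.map_zero_eq_one] at h3
  linear_combination -h3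

/-- the Gauss sum at a multiple of the modulus -/
theorem gauss_step [NeZero n] [Fact l.Prime] [NeZero (n * l)] (h : l.Coprime n)
    (χ : (ZMod n)ˣ →* ℂˣ) :
    gauss (n * l) (χ.comp (ZMod.unitsMap (dvd_mul_right n l))) =
      -(χ (frob n l) : ℂ) * gauss n χ := by
  classical
  have hl0 : NeZero l := ⟨(Fact.out : l.Prime).ne_zero⟩
  obtain ⟨A, B, hAB⟩ : ∃ A B : ℤ, A * l + B * n = 1 := by
    have h1 : IsCoprime (l : ℤ) (n : ℤ) := Nat.isCoprime_iff_coprime.2 h
    obtain ⟨A, B, hAB⟩ := h1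
    exact ⟨A, B, hAB⟩
  have hA : (A : ZMod n) * (l : ZMod n) = 1 := by
    have := congrArg (fun z : ℤ => (z : ZMod n)) hAB
    push_cast at this
    rwa [ZMod.natCast_self, mul_zero, add_zero] at this
  have hB : IsUnit (B : ZMod l) := by
    have := congrArg (fun z : ℤ => (z : ZMod l)) hAB
    push_cast at this
    rw [ZMod.natCast_self, mul_zero, zero_add] at this
    exact IsUnit.of_mul_eq_one _ this
  let e : (ZMod (n * l))ˣ ≃* (ZMod n)ˣ × (ZMod l)ˣ :=
    (Units.mapEquiv (ZMod.chineseRemainder (Nat.Coprime.symm h)).toMulEquiv).trans MulEquiv.prodUnits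
  have hc1 : (RingHom.fst (ZMod n) (ZMod l)).comp
      (ZMod.chineseRemainder (Nat.Coprime.symm h)).toRingHom =
      ZMod.castHom (dvd_mul_right n l) (ZMod n) := Subsingleton.elim _ _
  have hc2 : (RingHom.snd (ZMod n) (ZMod l)).comp
      (ZMod.chineseRemainder (Nat.Coprime.symm h)).toRingHom =
      ZMod.castHom (dvd_mul_left l n) (ZMod l) := Subsingleton.elim _ _
  have he1 : ∀ σ : (ZMod (n * l))ˣ, (e σ).1 = ZMod.unitsMap (dvd_mul_right n l) σ := by
    intro σ
    ext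
    rw [ZMod.unitsMap_def, Units.coe_map]
    exact congrArg (fun f => f (σ : ZMod (n * l))) hc1
  have he2 : ∀ σ : (ZMod (n * l))ˣ, ((e σ).2 : ZMod l) =
      ZMod.castHom (dvd_mul_left l n) (ZMod l) (σ : ZMod (n * l)) := by
    intro σ
    exact congrArg (fun f => f (σ : ZMod (n * l))) hc2
  have he1' : ∀ σ : (ZMod (n * l))ˣ, ((e σ).1 : ZMod n) =
      ZMod.castHom (dvd_mul_right n l) (ZMod n) (σ : ZMod (n * l)) := by
    intro σ
    rw [he1, ZMod.unitsMap_def]
    rfl
  rw [gauss_eq]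
  have h1 : ∑ σ : (ZMod (n * l))ˣ, (((χ.comp (ZMod.unitsMap (dvd_mul_right n l))) σ : ℂˣ) : ℂ) *
      ZMod.stdAddChar (σ : ZMod (n * l)) =
      ∑ y : (ZMod n)ˣ × (ZMod l)ˣ, ((χ y.1 : ℂ) * ZMod.stdAddChar ((A : ZMod n) * (y.1 : ZMod n))) *
        ZMod.stdAddChar ((B : ZMod l) * (y.2 : ZMod l)) := by
    refine Fintype.sum_equiv e.toEquiv _ _ fun σ => ?_
    rw [stdAddChar_mul A B hAB]
    simp only [MulEquiv.toEquiv_eq_coe, EquivLike.coe_coe, MonoidHom.comp_apply]
    rw [← he1, he2, he1']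
    ring
  rw [h1, Fintype.sum_prod_type]
  simp only [← Finset.mul_sum]
  rw [sum_units_stdAddChar B hB, ← Finset.sum_mul, gauss_eq]
  have h2 : ∑ y : (ZMod n)ˣ, (χ y : ℂ) * ZMod.stdAddChar ((A : ZMod n) * (y : ZMod n)) =
      (χ (frob n l) : ℂ) * ∑ σ : (ZMod n)ˣ, (χ σ : ℂ) * ZMod.stdAddChar (σ : ZMod n) := by
    rw [Finset.mul_sum]
    symm
    refine Fintype.sum_equiv (Equiv.mulLeft (frob n l)) _ _ fun y => ?_
    simp only [Equiv.coe_mulLeft, map_mul, Units.val_mul, frob_coe h]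
    rw [← mul_assoc (A : ZMod n), hA, one_mul]
    ring
  rw [h2]
  ring

end gauss

section Lfun

theorem hasProd_ite {β : Type} (b : β) (x : ℂ) [DecidablePred fun q : β => q = b] :
    HasProd (fun q : β => if q = b then x else 1) x := by
  classical
  convert hasProd_ite_eq b x

/-- the `L`-function at a multiple of the modulus -/
theorem L_step {N : ℕ} {a : ℕ → ℤ} {n l : ℕ} [hl : Fact l.Prime] (h : l.Coprime n)
    (hN : l.Coprime N) (χ : (ZMod n)ˣ →* ℂˣ) {L L' : ℂ → ℂ} (hL : IsL N a n χ L)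
    (hL' : IsL N a (n * l) (χ.comp (ZMod.unitsMap (dvd_mul_right n l))) L') :
    (l : ℂ) * L' 1 = L 1 * (l - a l * (χ (frob n l) : ℂ) + (χ (frob n l) : ℂ) ^ 2) := by
  classical
  have hl0 : (l : ℂ) ≠ 0 := by exact_mod_cast hl.out.ne_zero
  set P : ℂ → ℂ := fun s => 1 - a l * (χ (frob n l) : ℂ) * (l : ℂ) ^ (-s) +
    (χ (frob n l) : ℂ) ^ 2 * (l : ℂ) ^ (1 - 2 * s) with hP
  have hlN : ¬ l ∣ n * N := fun hd => by
    rcases (hl.out.dvd_mul).1 hd with h1 | h1
    · exact hl.out.one_lt.ne' (Nat.dvd_one.1 (h ▸ Nat.dvd_gcd dvd_rfl h1))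
    · exact hl.out.one_lt.ne' (Nat.dvd_one.1 (hN ▸ Nat.dvd_gcd dvd_rfl h1))
  -- the relation where `P` does not vanish
  have h1 : ∀ s : ℂ, 2 < s.re → P s ≠ 0 → L' s = L s * P s := by
    intro s hs hPs
    have h2 := hL.2 s hs
    have h3 := hL'.2 s hs
    have h4 : HasProd (fun q : Nat.Primes => if q = ⟨l, hl.out⟩ then P s else 1) (P s) :=
      hasProd_ite _ _
    refine h3.unique ?_
    convert h2.mul h4 using 1
    funext q
    by_cases hq : q = ⟨l, hl.out⟩
    · rw [if_pos hq, hq, if_pos (Dvd.intro _ (by ring : l * (n * N) = n * l * N)), if_neg hlN]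
      exact (inv_mul_cancel₀ hPs).symm
    · rw [if_neg hq, mul_one]
      have hql : ¬ (q : ℕ) ∣ l := fun hd => by
        apply hq
        have := (Nat.prime_dvd_prime_iff_eq q.2 hl.out).1 hd
        exact Subtype.ext this
      have hiff : ((q : ℕ) ∣ n * l * N) ↔ ((q : ℕ) ∣ n * N) := by
        rw [q.2.dvd_mul, q.2.dvd_mul, q.2.dvd_mul]
        tauto
      by_cases hd : (q : ℕ) ∣ n * N
      · rw [if_pos hd, if_pos (hiff.2 hd)]
      · rw [if_neg hd, if_neg fun h' => hd (hiff.1 h')]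
        have hqn : (q : ℕ).Coprime (n * l) := by
          rw [Nat.Prime.coprime_iff_not_dvd q.2, q.2.dvd_mul]
          rintro (h' | h')
          · exact hd (dvd_mul_of_dvd_left h' _)
          · exact hql h'
        rw [MonoidHom.comp_apply, unitsMap_frob _ hqn]
  -- a point where `P` does not vanish
  have hPd : Differentiable ℂ P := by
    intro s
    simp only [hP]
    have e1 : DifferentiableAt ℂ (fun s : ℂ => (l : ℂ) ^ (-s)) s :=
      (differentiableAt_id.neg).const_cpow (Or.inl hl0)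
    have e2 : DifferentiableAt ℂ (fun s : ℂ => (l : ℂ) ^ (1 - 2 * s)) s :=
      ((differentiableAt_const _).sub (differentiableAt_id.const_mul _)).const_cpow (Or.inl hl0)
    exact (((differentiableAt_const _).sub (e1.const_mul _)).add (e2.const_mul _))
  obtain ⟨k, hk2, hk⟩ : ∃ k : ℕ, 2 < k ∧ P k ≠ 0 := by
    have hx : ‖((l : ℂ))⁻¹‖ < 1 := by
      rw [norm_inv, Complex.norm_natCast]
      exact inv_lt_one_of_one_lt₀ (by exact_mod_cast hl.out.one_lt)
    have t1 := tendsto_pow_atTop_nhds_zero_of_norm_lt_one hx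
    have t2 : Filter.Tendsto (fun k : ℕ => P k) Filter.atTop (nhds (1 - a l * (χ (frob n l) : ℂ) * 0 +
        (χ (frob n l) : ℂ) ^ 2 * (l * (0 * 0)))) := by
      have e : (fun k : ℕ => P k) = fun k : ℕ => 1 - a l * (χ (frob n l) : ℂ) * ((l : ℂ)⁻¹) ^ k +
          (χ (frob n l) : ℂ) ^ 2 * (l * (((l : ℂ)⁻¹) ^ k * ((l : ℂ)⁻¹) ^ k)) := by
        funext k
        simp only [hP]
        have e1 : (l : ℂ) ^ (-(k : ℂ)) = ((l : ℂ)⁻¹) ^ k := by
          rw [Complex.cpow_neg, Complex.cpow_natCast, inv_pow]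
        have e2 : (l : ℂ) ^ (1 - 2 * (k : ℂ)) = l * (((l : ℂ)⁻¹) ^ k * ((l : ℂ)⁻¹) ^ k) := by
          rw [show (1 : ℂ) - 2 * k = 1 + (-(k : ℂ) + -(k : ℂ)) by ring, Complex.cpow_add _ _ hl0,
            Complex.cpow_one, Complex.cpow_add _ _ hl0, e1]
        rw [e1, e2]
      rw [e]
      exact ((tendsto_const_nhds.sub (t1.const_mul _)).add
        (((t1.mul t1).const_mul _).const_mul _))
    simp only [mul_zero, sub_zero, add_zero] at t2
    have t3 := t2.eventually_ne (one_ne_zero : (1 : ℂ) ≠ 0)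
    obtain ⟨k, hk, hk'⟩ := (t3.and (Filter.eventually_gt_atTop 2)).exists
    exact ⟨k, hk', hk⟩
  -- the identity theorem
  have h2 : L' = fun s => L s * P s := by
    have a1 : AnalyticOnNhd ℂ L' Set.univ := hL'.1.differentiableOn.analyticOnNhd isOpen_univ
    have a2 : AnalyticOnNhd ℂ (fun s => L s * P s) Set.univ :=
      (hL.1.mul hPd).differentiableOn.analyticOnNhd isOpen_univ
    have a3 : L' =ᶠ[nhds (k : ℂ)] fun s => L s * P s := by
      have b1 : ∀ᶠ s in nhds (k : ℂ), P s ≠ 0 :=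
        (hPd.continuous.continuousAt).eventually_ne hk
      have b2 : ∀ᶠ s in nhds (k : ℂ), 2 < s.re := by
        have : IsOpen {s : ℂ | 2 < s.re} := isOpen_lt continuous_const Complex.continuous_re
        exact this.mem_nhds (show (2 : ℝ) < ((k : ℂ)).re by
          rw [Complex.natCast_re]; exact_mod_cast hk2)
      filter_upwards [b1, b2] with s hs1 hs2 using h1 s hs2 hs1
    exact a1.eq_of_eventuallyEq a2 a3
  rw [h2]
  simp only [hP]
  have e1 : (l : ℂ) ^ (-(1 : ℂ)) = (l : ℂ)⁻¹ := by rw [Complex.cpow_neg, Complex.cpow_one]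
  have e2 : (l : ℂ) ^ (1 - 2 * (1 : ℂ)) = (l : ℂ)⁻¹ := by
    rw [show (1 : ℂ) - 2 * 1 = -1 by ring, e1]
  rw [e1, e2]
  field_simp

end Lfun

end Pool.Agent.Q15.MT
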