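import Pool.Agent.Q15.MT.B1
import Pool.Agent.Q15.MT.A3

set_option maxHeartbeats 4000000
set_option synthInstance.maxHeartbeats 400000
set_option linter.unusedSectionVars false

/-!
# The modular elements of a field and of a subfield
-/

namespace Pool.Agent.Q15.MT

open Complex

variable {p : ℕ} [hp : Fact p.Prime]

theorem Admissible.of_dvd {N : ℕ} {a : ℕ → ℤ} {m m' : ℕ} (h : Admissible p N a m) (hd : m' ∣ m) :
    Admissible p N a m' :=
  ⟨h.1.squarefree_of_dvd hd, Nat.Coprime.coprime_dvd_left hd h.2.1,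
    fun h' => h.2.2.1 (h'.trans hd), fun l hl hlm => h.2.2.2 l hl (hlm.trans hd)⟩

section values

variable (E : Curve p)

/-- the value of the modular element at a character -/
noncomputable def V (m : ℕ) [NeZero m] (χ : (ZMod m)ˣ →* ℂˣ) : ℂ :=
  gauss m χ * E.L m χ⁻¹ 1 / E.period

/-- the value of the factor at `l` -/
noncomputable def eVal (m : ℕ) (χ : (ZMod m)ˣ →* ℂˣ) (l : ℕ) : ℂ :=
  -(χ (frob m l) : ℂ) * (l - E.a l * (χ (frob m l)⁻¹ : ℂ) + (χ (frob m l)⁻¹ : ℂ) ^ 2)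

theorem V_step (n l : ℕ) [NeZero n] [hl : Fact l.Prime] [NeZero (n * l)]
    (hm : Admissible p E.N E.a (n * l)) (χ : (ZMod n)ˣ →* ℂˣ) :
    (l : ℂ) * V E (n * l) (χ.comp (ZMod.unitsMap (dvd_mul_right n l))) =
      eVal E n χ l * V E n χ := by
  have hln : l.Coprime n := by
    have := hm.1
    rw [Nat.squarefree_mul_iff] at this
    exact this.1.symm
  have hlN : l.Coprime E.N := Nat.Coprime.coprime_dvd_left (dvd_mul_left l n) hm.2.1
  have h1 := L_step hln hlN χ⁻¹ (E.isL n (hm.of_dvd (dvd_mul_right n l)) χ⁻¹)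
    (E.isL (n * l) hm ((χ⁻¹).comp (ZMod.unitsMap (dvd_mul_right n l))))
  have h2 := gauss_step hln χ
  have h3 : (χ.comp (ZMod.unitsMap (dvd_mul_right n l)))⁻¹ =
      (χ⁻¹).comp (ZMod.unitsMap (dvd_mul_right n l)) := rfl
  rw [V, V, h2, h3, eVal]
  have h4 : ((χ⁻¹ (frob n l) : ℂˣ) : ℂ) = (χ (frob n l)⁻¹ : ℂ) := by
    rw [MonoidHom.inv_apply, map_inv]
  rw [h4] at h1
  have hP := E.period_ne
  rw [mul_div_assoc', mul_div_assoc', div_eq_div_iff hP hP]
  linear_combination (-(χ (frob n l) : ℂ) * gauss n χ * E.period) * h1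

theorem V_chain (s : Finset ℕ) (hs : ∀ l ∈ s, l.Prime) (m' m : ℕ) [NeZero m'] [NeZero m]
    (h : m' ∣ m) (hm : m = m' * ∏ l ∈ s, l) (hA : Admissible p E.N E.a m)
    (χ : (ZMod m')ˣ →* ℂˣ) :
    (∏ l ∈ s, (l : ℂ)) * V E m (χ.comp (ZMod.unitsMap h)) =
      (∏ l ∈ s, eVal E m' χ l) * V E m' χ := by
  classical
  induction s using Finset.induction_on generalizing m with
  | empty =>
    have h1 : m = m' := by simpa using hm
    subst h1
    have h2 : ZMod.unitsMap h = MonoidHom.id _ := ZMod.unitsMap_self m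
    rw [h2, MonoidHom.comp_id]
    simp
  | insert l s hls ih =>
    have hlp : l.Prime := hs l (Finset.mem_insert_self l s)
    have : Fact l.Prime := ⟨hlp⟩
    rw [Finset.prod_insert hls] at hm
    set n := m' * ∏ l ∈ s, l with hn
    have hm' : m = n * l := by rw [hm, hn]; ring
    subst hm'
    have hn0 : NeZero n := ⟨fun h0 => NeZero.ne (n * l) (by rw [h0, zero_mul])⟩
    have hmn : m' ∣ n := Dvd.intro _ rfl
    have h1 : χ.comp (ZMod.unitsMap h) =
        (χ.comp (ZMod.unitsMap hmn)).comp (ZMod.unitsMap (dvd_mul_right n l)) := by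
      rw [MonoidHom.comp_assoc, ZMod.unitsMap_comp]
    have h2 := V_step E n l hA (χ.comp (ZMod.unitsMap hmn))
    have h3 := ih (fun q hq => hs q (Finset.mem_insert_of_mem hq)) n hmn hn
      (hA.of_dvd (dvd_mul_right n l))
    have hln : l.Coprime n := by
      have := hA.1
      rw [Nat.squarefree_mul_iff] at this
      exact this.1.symm
    have h4 : eVal E n (χ.comp (ZMod.unitsMap hmn)) l = eVal E m' χ l := by
      simp only [eVal, MonoidHom.comp_apply, map_inv, unitsMap_frob hmn hln]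
    rw [Finset.prod_insert hls, Finset.prod_insert hls, h1]
    rw [h4] at h2
    linear_combination (∏ l ∈ s, (l : ℂ)) * h2 + eVal E m' χ l * h3

end values

section ring

variable {R : Type} [CommRing R] {G H : Type} [CommGroup G] [CommGroup H]

/-- the factor at `l` in the group ring, `σ l` the Frobenius automorphism -/
noncomputable def wl (R : Type) [CommRing R] (a : ℕ → ℤ) (σ : ℕ → H) (l : ℕ) :
    MonoidAlgebra R H :=
  -MonoidAlgebra.of R H (σ l) *
    ((l : MonoidAlgebra R H) - (a l : MonoidAlgebra R H) * MonoidAlgebra.of R H (σ l)⁻¹ +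
      MonoidAlgebra.of R H (σ l)⁻¹ * MonoidAlgebra.of R H (σ l)⁻¹)

theorem aug_wl (a : ℕ → ℤ) (σ : ℕ → H) (l : ℕ) :
    aug R H (wl R a σ l) = -((l : R) + 1 - (a l : R)) := by
  simp only [wl, map_mul, map_neg, map_add, map_sub, aug_of, map_natCast, map_intCast]
  ring

theorem mapRingHom_of {S : Type} [CommRing S] (f : R →+* S) (g : G) :
    MonoidAlgebra.mapRingHom G f (MonoidAlgebra.of R G g) = MonoidAlgebra.of S G g := by
  rw [MonoidAlgebra.of_apply, MonoidAlgebra.of_apply, MonoidAlgebra.mapRingHom_single, map_one]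

theorem map_wl {S : Type} [CommRing S] (f : R →+* S) (a : ℕ → ℤ) (σ : ℕ → H) (l : ℕ) :
    MonoidAlgebra.mapRingHom H f (wl R a σ l) = wl S a σ l := by
  rw [wl, wl, RingHom.map_mul, RingHom.map_neg, RingHom.map_add, RingHom.map_sub, RingHom.map_mul,
    RingHom.map_mul, mapRingHom_of, mapRingHom_of, map_natCast, map_intCast]

theorem mp_comp {K : Type} [CommGroup K] (f : G →* H)
    (g : H →* K) (x : MonoidAlgebra R G) : mp R (g.comp f) x = mp R g (mp R f x) := by
  induction x using MonoidAlgebra.induction_on with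
  | of y => rw [mp_of, mp_of, mp_of]; rfl
  | add x y hx hy => rw [map_add, map_add, map_add, hx, hy]
  | smul r x hx =>
    rw [Algebra.smul_def, map_mul, map_mul, map_mul, hx, mp_algebraMap, mp_algebraMap,
      mp_algebraMap]

theorem map_mp {S : Type} [CommRing S] (f : R →+* S)
    (φ : G →* H) (x : MonoidAlgebra R G) :
    MonoidAlgebra.mapRingHom H f (mp R φ x) = mp S φ (MonoidAlgebra.mapRingHom G f x) := by
  induction x using MonoidAlgebra.induction_on with
  | of y => rw [mp_of, mapRingHom_of, mapRingHom_of, mp_of]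
  | add x y hx hy => rw [map_add, map_add, map_add, map_add, hx, hy]
  | smul r x hx =>
    have h1 : r • x = MonoidAlgebra.single 1 r * x := by
      rw [Algebra.smul_def]; rfl
    rw [h1, map_mul, map_mul, map_mul, map_mul, hx]
    congr 1
    simp [mp]

variable [Finite G] [Finite H]

theorem ev_wl (a : ℕ → ℤ) (σ : ℕ → H) (χ : H →* ℂˣ) (l : ℕ) :
    ev χ (wl ℚ a σ l) = -(χ (σ l) : ℂ) *
      (l - a l * ((χ (σ l)⁻¹ : ℂˣ) : ℂ) + ((χ (σ l)⁻¹ : ℂˣ) : ℂ) ^ 2) := by
  simp only [wl, map_mul, map_neg, map_add, map_sub, ev_of, map_natCast, map_intCast, pow_two]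

theorem ev_mp (φ : G →* H) (χ : H →* ℂˣ)
    (t : MonoidAlgebra ℚ G) : ev χ (mp ℚ φ t) = ev (χ.comp φ) t := by
  induction t using MonoidAlgebra.induction_on with
  | of y => rw [mp_of, ev_of, ev_of]; rfl
  | add x y hx hy => rw [map_add, map_add, map_add, hx, hy]
  | smul r x hx =>
    rw [Algebra.smul_def, map_mul, map_mul, map_mul, mp_algebraMap, hx, AlgHom.commutes,
      AlgHom.commutes]

/-- a relation between values of characters as a relation in the group ring over `ℤ_p` -/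
theorem rel_transfer (φ : G →* H) (a : ℕ → ℤ) (σ : ℕ → H) (s : Finset ℕ)
    (θ : MonoidAlgebra ℤ_[p] G) (t : MonoidAlgebra ℚ G) (θ' : MonoidAlgebra ℤ_[p] H)
    (t' : MonoidAlgebra ℚ H) (ht : ∀ g, ((θ.coeff g : ℤ_[p]) : ℚ_[p]) = ((t.coeff g : ℚ) : ℚ_[p]))
    (ht' : ∀ g, ((θ'.coeff g : ℤ_[p]) : ℚ_[p]) = ((t'.coeff g : ℚ) : ℚ_[p]))
    (h : ∀ χ : H →* ℂˣ, (∏ l ∈ s, (l : ℂ)) * ev (χ.comp φ) t =
      (∏ l ∈ s, (-(χ (σ l) : ℂ) *
        (l - a l * ((χ (σ l)⁻¹ : ℂˣ) : ℂ) + ((χ (σ l)⁻¹ : ℂˣ) : ℂ) ^ 2))) * ev χ t') :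
    (∏ l ∈ s, (l : MonoidAlgebra ℤ_[p] H)) * mp ℤ_[p] φ θ =
      (∏ l ∈ s, wl ℤ_[p] a σ l) * θ' := by
  have h1 : (∏ l ∈ s, (l : MonoidAlgebra ℚ H)) * mp ℚ φ t =
      (∏ l ∈ s, wl ℚ a σ l) * t' := by
    rw [← sub_eq_zero]
    refine ext_of_ev _ fun χ => ?_
    rw [map_sub, map_mul, map_mul, map_prod, map_prod, ev_mp,
      Finset.prod_congr rfl fun l _ => ev_wl a σ χ l]
    simp only [map_natCast]
    rw [h χ, sub_self]
  have h2 : ∀ {G₁ : Type} [CommGroup G₁] {θ₁ : MonoidAlgebra ℤ_[p] G₁} {t₁ : MonoidAlgebra ℚ G₁},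
      (∀ g, ((θ₁.coeff g : ℤ_[p]) : ℚ_[p]) = ((t₁.coeff g : ℚ) : ℚ_[p])) →
      MonoidAlgebra.mapRingHom G₁ (PadicInt.Coe.ringHom (p := p)) θ₁ =
        MonoidAlgebra.mapRingHom G₁ (Rat.castHom ℚ_[p]) t₁ := by
    intro G₁ _ θ₁ t₁ h
    ext g
    rw [MonoidAlgebra.coeff_mapRingHom, MonoidAlgebra.coeff_mapRingHom]
    exact h g
  have hinj : Function.Injective
      (MonoidAlgebra.mapRingHom H (PadicInt.Coe.ringHom (p := p))) := by
    intro x y hxy
    ext g
    have := congrArg (fun z => z.coeff g) hxy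
    simp only [MonoidAlgebra.coeff_mapRingHom] at this
    exact PadicInt.ext this
  apply hinj
  rw [map_mul, map_mul, map_prod, map_prod, map_mp, h2 ht, h2 ht',
    Finset.prod_congr rfl fun l _ => map_wl (PadicInt.Coe.ringHom (p := p)) a σ l]
  have h3 := congrArg (MonoidAlgebra.mapRingHom H (Rat.castHom ℚ_[p])) h1
  rw [map_mul, map_mul, map_prod, map_prod, map_mp,
    Finset.prod_congr rfl fun l _ => map_wl (Rat.castHom ℚ_[p]) a σ l] at h3
  simp only [map_natCast] at h3 ⊢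
  exact h3

end ring

end Pool.Agent.Q15.MT
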