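import Pool.Agent.Q15.MT.B2

set_option maxHeartbeats 4000000
set_option synthInstance.maxHeartbeats 400000
set_option linter.unusedSectionVars false

/-!
# The conjecture for a group ring and for its image in the group ring of a quotient
-/

namespace Pool.Agent.Q15.MT

section general

variable {R : Type} [CommRing R] {G H : Type} [CommGroup G] [CommGroup H]

theorem sub_aug_mul_mem {k : ℕ} (w y : MonoidAlgebra R H) (hy : y ∈ augIdeal R H ^ k) :
    w * y - algebraMap R _ (aug R H w) * y ∈ augIdeal R H ^ (k + 1) := by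
  rw [← sub_mul, pow_succ']
  exact Ideal.mul_mem_mul (sub_aug_mem w) hy

/-- division by an element with invertible augmentation -/
theorem mem_of_mul_mem (w y : MonoidAlgebra R H) (hw : IsUnit (aug R H w)) (j : ℕ)
    (h : w * y ∈ augIdeal R H ^ j) : y ∈ augIdeal R H ^ j := by
  suffices h' : ∀ i, i ≤ j → y ∈ augIdeal R H ^ i from h' j le_rfl
  intro i
  induction i with
  | zero => intro _; simp
  | succ i ih =>
    intro hi
    have h1 := sub_aug_mul_mem w y (ih (by omega))
    have h2 := Ideal.pow_le_pow_right hi h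
    have h3 := Ideal.sub_mem _ h2 h1
    rw [sub_sub_cancel] at h3
    obtain ⟨u, hu⟩ := hw
    have h4 := Ideal.mul_mem_left _ (algebraMap R (MonoidAlgebra R H) ((u⁻¹ : Rˣ) : R)) h3
    rw [← mul_assoc, ← map_mul, ← hu, Units.inv_mul, map_one, one_mul] at h4
    exact h4

theorem mem_of_unit_mul_mem (q : R) (hq : IsUnit q) (y : MonoidAlgebra R H) (j : ℕ)
    (h : algebraMap R _ q * y ∈ augIdeal R H ^ j) : y ∈ augIdeal R H ^ j := by
  obtain ⟨u, rfl⟩ := hq
  have h4 := Ideal.mul_mem_left _ (algebraMap R (MonoidAlgebra R H) ((u⁻¹ : Rˣ) : R)) h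
  rw [← mul_assoc, ← map_mul, Units.inv_mul, map_one, one_mul] at h4
  exact h4

variable {r : ℕ} (φ : G →* H) (q c c' : R) (hq : IsUnit q) (w : MonoidAlgebra R H)
  (hc : q * c = aug R H w * c') (θ : MonoidAlgebra R G) (θ' : MonoidAlgebra R H)
  (hθ : algebraMap R _ q * mp R φ θ = w * θ')
  (X : Matrix (Fin r) (Fin r) (MonoidAlgebra R G)) (X' : Matrix (Fin r) (Fin r) (MonoidAlgebra R H))
  (hX : ∀ i j, Cg (augIdeal R H) 1 (mp R φ (X i j)) (X' i j))

include hX in
theorem det_cg : Cg (augIdeal R H) r (mp R φ X.det) X'.det := by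
  rw [RingHom.map_det]
  exact Cg.det _ _ fun i j => hX i j

include hθ hc in
theorem key : algebraMap R _ q * mp R φ (θ - c • X.det) =
    w * θ' - algebraMap R _ (aug R H w) * (algebraMap R _ c' * mp R φ X.det) := by
  rw [map_sub, mul_sub, hθ, Algebra.smul_def, RingHom.map_mul, mp_algebraMap, ← mul_assoc,
    ← map_mul, hc, map_mul, mul_assoc]

include hq hc hθ hX in
theorem mem_image (h1 : θ' ∈ augIdeal R H ^ r) (h2 : θ' - c' • X'.det ∈ augIdeal R H ^ (r + 1)) :
    mp R φ (θ - c • X.det) ∈ augIdeal R H ^ (r + 1) := by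
  apply mem_of_unit_mul_mem q hq
  rw [key φ q c c' w hc θ θ' hθ X]
  have h3 := sub_aug_mul_mem w θ' h1
  have h4 := (det_cg φ X X' hX).2.2
  rw [Algebra.smul_def] at h2
  have e : w * θ' - algebraMap R _ (aug R H w) * (algebraMap R _ c' * mp R φ X.det) =
      (w * θ' - algebraMap R _ (aug R H w) * θ') +
      algebraMap R _ (aug R H w) * (θ' - algebraMap R _ c' * X'.det) -
      algebraMap R _ (aug R H w) * (algebraMap R _ c' * (mp R φ X.det - X'.det)) := by ring
  rw [e]
  exact Ideal.sub_mem _ (Ideal.add_mem _ h3 (Ideal.mul_mem_left _ _ h2))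
    (Ideal.mul_mem_left _ _ (Ideal.mul_mem_left _ _ h4))

include hc hθ hX in
theorem mem_quotient (hw : IsUnit (aug R H w))
    (h : θ - c • X.det ∈ augIdeal R G ^ (r + 1)) :
    θ' ∈ augIdeal R H ^ r ∧ θ' - c' • X'.det ∈ augIdeal R H ^ (r + 1) := by
  have h0 := Ideal.mul_mem_left _ (algebraMap R (MonoidAlgebra R H) q) (mp_mem_pow φ _ _ h)
  rw [key φ q c c' w hc θ θ' hθ X] at h0
  have h4 := det_cg φ X X' hX
  have h5 : w * θ' ∈ augIdeal R H ^ r := by
    have e : w * θ' = (w * θ' - algebraMap R _ (aug R H w) * (algebraMap R _ c' * mp R φ X.det)) +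
        algebraMap R _ (aug R H w) * (algebraMap R _ c' * mp R φ X.det) := by ring
    rw [e]
    exact Ideal.add_mem _ (Ideal.pow_le_pow_right (Nat.le_succ r) h0)
      (Ideal.mul_mem_left _ _ (Ideal.mul_mem_left _ _ h4.1))
  have h6 := mem_of_mul_mem w θ' hw r h5
  refine ⟨h6, ?_⟩
  have h7 := sub_aug_mul_mem w θ' h6
  rw [Algebra.smul_def]
  apply mem_of_unit_mul_mem _ hw
  have e : algebraMap R _ (aug R H w) * (θ' - algebraMap R _ c' * X'.det) =
      (w * θ' - algebraMap R _ (aug R H w) * (algebraMap R _ c' * mp R φ X.det)) -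
      (w * θ' - algebraMap R _ (aug R H w) * θ') +
      algebraMap R _ (aug R H w) * (algebraMap R _ c' * (mp R φ X.det - X'.det)) := by ring
  rw [e]
  exact Ideal.add_mem _ (Ideal.sub_mem _ h0 h7)
    (Ideal.mul_mem_left _ _ (Ideal.mul_mem_left _ _ h4.2.2))

end general

section pairs

variable {p : ℕ} [hp : Fact p.Prime] {H : Type} [CommGroup H]

/-- elements with the same image in `H ⊗ ℤ_p` -/
theorem of_cg (x y : H) (k : ℕ) (hk : ¬ p ∣ k) (h : x ^ k = y ^ k) :
    Cg (augIdeal ℤ_[p] H) 1 (MonoidAlgebra.of ℤ_[p] H x - 1) (MonoidAlgebra.of ℤ_[p] H y - 1) := by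
  refine ⟨?_, ?_, ?_⟩
  · rw [pow_one]; exact of_sub_one_mem x
  · rw [pow_one]; exact of_sub_one_mem y
  · set z := x * y⁻¹ with hz
    have hzk : z ^ k = 1 := by rw [hz, mul_pow, h, inv_pow, mul_inv_cancel]
    have h1 := of_pow_sub (R := ℤ_[p]) z k
    rw [hzk, map_one, sub_self, zero_sub] at h1
    have h2 := Submodule.neg_mem _ h1
    rw [neg_neg] at h2
    have h3 : algebraMap ℤ_[p] (MonoidAlgebra ℤ_[p] H) (k : ℤ_[p]) *
        (MonoidAlgebra.of ℤ_[p] H z - 1) ∈ augIdeal ℤ_[p] H ^ 2 := by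
      rw [map_natCast]; exact h2
    have h4 := mem_of_unit_mul_mem _ (isUnit_of_not_dvd hk) _ 2 h3
    have h5 := of_mul_sub (R := ℤ_[p]) z y
    have hxy : z * y = x := by rw [hz, inv_mul_cancel_right]
    rw [hxy] at h5
    have e : MonoidAlgebra.of ℤ_[p] H x - 1 - (MonoidAlgebra.of ℤ_[p] H y - 1) =
        (MonoidAlgebra.of ℤ_[p] H x - 1 - ((MonoidAlgebra.of ℤ_[p] H z - 1) +
          (MonoidAlgebra.of ℤ_[p] H y - 1))) + (MonoidAlgebra.of ℤ_[p] H z - 1) := by ring
    rw [e]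
    exact Ideal.add_mem _ h5 h4

end pairs

end Pool.Agent.Q15.MT
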