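import Pool.Agent.Q15.MT.B3

set_option maxHeartbeats 4000000
set_option synthInstance.maxHeartbeats 400000
set_option linter.unusedSectionVars false

/-!
# The conjecture for a field and for its subfields
-/

namespace Pool.Agent.Q15.MT

open Complex

variable {p : ℕ} [hp : Fact p.Prime]

theorem proj_surjective (F : RealAbelian) : Function.Surjective F.proj :=
  QuotientGroup.mk'_surjective F.H

theorem proj_eq_one (F : RealAbelian) (x : (ZMod F.m)ˣ) : F.proj x = 1 ↔ x ∈ F.H :=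
  QuotientGroup.eq_one_iff x

instance instFiniteGal (F : RealAbelian) : Finite F.Gal :=
  Finite.of_surjective F.proj (proj_surjective F)

/-- a homomorphism trivial on `H` -/
theorem exists_lift {C : Type} [CommGroup C] (F : RealAbelian) (f : (ZMod F.m)ˣ →* C)
    (hf : ∀ x ∈ F.H, f x = 1) : ∃ g : F.Gal →* C, ∀ x, g (F.proj x) = f x :=
  ⟨QuotientGroup.lift F.H f fun x hx => MonoidHom.mem_ker.2 (hf x hx), fun _ => rfl⟩

/-- the restriction to a subfield -/
theorem exists_res {F' F : RealAbelian} (h : F'.IsSubfield F) :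
    ∃ r : F.Gal →* F'.Gal, ∀ x, r (F.proj x) = F'.proj (ZMod.unitsMap h.1 x) :=
  exists_lift F (F'.proj.comp (ZMod.unitsMap h.1)) fun x hx => (proj_eq_one F' _).2 (h.2 x hx)

/-- the restriction to a subfield -/
noncomputable def res {F' F : RealAbelian} (h : F'.IsSubfield F) : F.Gal →* F'.Gal :=
  (exists_res h).choose

theorem res_mk {F' F : RealAbelian} (h : F'.IsSubfield F) (x : (ZMod F.m)ˣ) :
    res h (F.proj x) = F'.proj (ZMod.unitsMap h.1 x) := (exists_res h).choose_spec x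

/-- the subfield of a given subgroup -/
theorem exists_subfield (F : RealAbelian) (K : Subgroup (ZMod F.m)ˣ) (hK : F.H ≤ K) :
    ∃ (F' : RealAbelian) (h : F'.IsSubfield F), ∀ x, ZMod.unitsMap h.1 x ∈ F'.H ↔ x ∈ K := by
  classical
  have hex : ∃ d, ∃ h : d ∣ F.m, (ZMod.unitsMap h).ker ≤ K := by
    refine ⟨F.m, dvd_rfl, ?_⟩
    rw [ZMod.unitsMap_self]
    intro x hx
    have : x = 1 := hx
    rw [this]; exact K.one_mem
  obtain ⟨hd, hker⟩ := Nat.find_spec hex
  set d := Nat.find hex with hdef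
  have hd0 : d ≠ 0 := fun h0 => NeZero.ne F.m (by rw [h0] at hd; exact zero_dvd_iff.1 hd)
  have hmem : ∀ x, ZMod.unitsMap hd x ∈ K.map (ZMod.unitsMap hd) ↔ x ∈ K := by
    intro x
    constructor
    · rintro ⟨y, hy, hxy⟩
      have h1 : x * y⁻¹ ∈ (ZMod.unitsMap hd).ker := by
        rw [MonoidHom.mem_ker, map_mul, map_inv, hxy, mul_inv_cancel]
      have h2 := K.mul_mem (hker h1) hy
      rwa [inv_mul_cancel_right] at h2
    · intro hx
      exact ⟨x, hx, rfl⟩
  refine ⟨⟨d, ⟨hd0⟩, K.map (ZMod.unitsMap hd), ?_, ?_⟩, ⟨hd, fun x hx => (hmem x).2 (hK hx)⟩, hmem⟩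
  · have := (hmem (-1)).2 (hK F.neg_one_mem)
    have h1 : ZMod.unitsMap hd (-1) = -1 := by
      ext
      change ZMod.castHom hd (ZMod d) (((-1 : (ZMod F.m)ˣ)) : ZMod F.m) =
        ((-1 : (ZMod d)ˣ) : ZMod d)
      rw [Units.val_neg, Units.val_one, Units.val_neg, Units.val_one, map_neg, map_one]
    rwa [h1] at this
  · intro e he hke
    have h1 : ∃ h : e ∣ F.m, (ZMod.unitsMap h).ker ≤ K := by
      refine ⟨he.trans hd, fun x hx => ?_⟩
      rw [← hmem]
      apply hke
      rw [MonoidHom.mem_ker] at hx ⊢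
      rw [← ZMod.unitsMap_comp he hd] at hx
      exact hx
    exact le_antisymm (Nat.le_of_dvd (Nat.pos_of_ne_zero hd0) he) (Nat.find_min' hex h1)

/-- a homomorphism from `Gal(F/ℚ)` factors through an injective homomorphism from the Galois group
of a subfield -/
theorem exists_factor {C : Type} [CommGroup C] (F : RealAbelian) (φ : F.Gal →* C) :
    ∃ (F' : RealAbelian) (h : F'.IsSubfield F) (j : F'.Gal →* C), Function.Injective j ∧
      j.comp (res h) = φ := by
  obtain ⟨F', h, hF'⟩ := exists_subfield F (φ.comp F.proj).ker (fun x hx => by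
    rw [MonoidHom.mem_ker, MonoidHom.comp_apply, (proj_eq_one F x).2 hx, map_one])
  have hsurj := ZMod.unitsMap_surjective h.1
  have hker : (ZMod.unitsMap h.1).ker ≤ (φ.comp F.proj).ker := by
    intro x hx
    rw [← hF' x]
    rw [MonoidHom.mem_ker.1 hx]
    exact F'.H.one_mem
  let j0 : (ZMod F'.m)ˣ →* C := (ZMod.unitsMap h.1).liftOfSurjective hsurj
    ⟨φ.comp F.proj, hker⟩
  have hj0 : ∀ x, j0 (ZMod.unitsMap h.1 x) = φ (F.proj x) := fun x =>
    MonoidHom.liftOfRightInverse_comp_apply _ _ _ _ x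
  obtain ⟨j, hj⟩ := exists_lift F' j0 (fun y hy => by
    obtain ⟨x, rfl⟩ := hsurj y
    rw [hj0]
    exact (hF' x).1 hy)
  refine ⟨F', h, j, ?_, ?_⟩
  · rw [injective_iff_map_eq_one]
    intro z hz
    obtain ⟨y, rfl⟩ := proj_surjective F' z
    obtain ⟨x, rfl⟩ := hsurj y
    rw [hj, hj0] at hz
    exact (proj_eq_one F' _).2 ((hF' x).2 hz)
  · refine MonoidHom.ext fun z => ?_
    obtain ⟨x, rfl⟩ := proj_surjective F z
    rw [MonoidHom.comp_apply, res_mk, hj, hj0]

/-- the constants for `m` and for a divisor of `m` -/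
theorem const_rel (E : Curve p) (m' m : ℕ) (hA : Admissible p E.N E.a m) (h : m' ∣ m) :
    (∏ l ∈ (m / m').primeFactors, (l : ℤ_[p])) * E.const m =
      (∏ l ∈ (m / m').primeFactors, (-((l : ℤ_[p]) + 1 - (E.a l : ℤ_[p])))) * E.const m' := by
  obtain ⟨q, rfl⟩ := h
  have hm0 : m' ≠ 0 := fun h0 => by
    have := hA.1.ne_zero
    rw [h0, zero_mul] at this
    exact this rfl
  rw [Nat.mul_div_cancel_left q (Nat.pos_of_ne_zero hm0)]
  have hcop : m'.Coprime q := by
    have := hA.1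
    rw [Nat.squarefree_mul_iff] at this
    exact this.1
  have hdisj := hcop.disjoint_primeFactors
  rw [Curve.const, Curve.const, hcop.primeFactors_mul, Finset.card_union_of_disjoint hdisj,
    Finset.prod_union hdisj, pow_add]
  have h1 : (∏ l ∈ q.primeFactors, (l : ℤ_[p])) * ((-1) ^ q.primeFactors.card *
      ∏ l ∈ q.primeFactors, (((l : ℤ) + 1 - E.a l : ℤ) : ℤ_[p]) * Ring.inverse (l : ℤ_[p])) =
      ∏ l ∈ q.primeFactors, (-((l : ℤ_[p]) + 1 - (E.a l : ℤ_[p]))) := by
    rw [← Finset.prod_const, ← Finset.prod_mul_distrib, ← Finset.prod_mul_distrib]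
    refine Finset.prod_congr rfl fun l hl => ?_
    have hl' := Nat.mem_primeFactors.1 hl
    have hlp : ¬ p ∣ l := fun hpl => hA.2.2.1 (hpl.trans (hl'.2.1.trans (dvd_mul_left q m')))
    have h2 : (l : ℤ_[p]) * Ring.inverse (l : ℤ_[p]) = 1 :=
      Ring.mul_inverse_cancel _ (isUnit_of_not_dvd hlp)
    push_cast
    linear_combination (-((l : ℤ_[p]) + 1 - (E.a l : ℤ_[p]))) * h2
  rw [← h1]
  ring

/-- the relation between the modular elements of `F` and of a subfield -/
theorem theta_rel (E : Curve p) {F' F : RealAbelian} (h : F'.IsSubfield F)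
    (hA : Admissible p E.N E.a F.m) (θ : MonoidAlgebra ℤ_[p] F.Gal) (hθ : IsTheta E F θ)
    (θ' : MonoidAlgebra ℤ_[p] F'.Gal) (hθ' : IsTheta E F' θ') :
    (∏ l ∈ (F.m / F'.m).primeFactors, (l : MonoidAlgebra ℤ_[p] F'.Gal)) * mp ℤ_[p] (res h) θ =
      (∏ l ∈ (F.m / F'.m).primeFactors,
        wl ℤ_[p] E.a (fun l => F'.proj (frob F'.m l)) l) * θ' := by
  obtain ⟨t, ht, htχ⟩ := hθ
  obtain ⟨t', ht', htχ'⟩ := hθ'
  refine rel_transfer (res h) E.a _ _ θ t θ' t' ht ht' fun χ => ?_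
  have e0 : (χ.comp (res h)).comp F.proj = (χ.comp F'.proj).comp (ZMod.unitsMap h.1) :=
    MonoidHom.ext fun x => congrArg χ (res_mk h x)
  have e1 : ev (χ.comp (res h)) t = V E F.m ((χ.comp F'.proj).comp (ZMod.unitsMap h.1)) := by
    rw [ev_eq, htχ (χ.comp (res h)), e0, V]
  have e2 : ev χ t' = V E F'.m (χ.comp F'.proj) := by
    rw [ev_eq, htχ' χ, V]
  rw [e1, e2]
  have hq0 : F.m / F'.m ≠ 0 := by
    have h1 := Nat.div_mul_cancel h.1
    intro h0
    rw [h0, zero_mul] at h1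
    exact NeZero.ne F.m h1.symm
  have hsq : Squarefree (F.m / F'.m) := hA.1.squarefree_of_dvd (Nat.div_dvd_of_dvd h.1)
  have hm : F.m = F'.m * ∏ l ∈ (F.m / F'.m).primeFactors, l := by
    rw [Nat.prod_primeFactors_of_squarefree hsq, Nat.mul_div_cancel' h.1]
  rw [V_chain E _ (fun l hl => Nat.prime_of_mem_primeFactors hl) F'.m F.m h.1 hm hA]
  congr 1

end Pool.Agent.Q15.MT
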