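import Pool.Agent.Q15.MT.B4

set_option maxHeartbeats 4000000
set_option synthInstance.maxHeartbeats 400000
set_option linter.unusedSectionVars false

/-!
# The conjecture and cyclic subfields
-/

namespace Pool.Agent.Q15.MT

open Complex

variable {p : ℕ} [hp : Fact p.Prime] (E : Curve p)

section rel

variable {F' F : RealAbelian} (h : F'.IsSubfield F) (hA : Admissible p E.N E.a F.m)

/-- the product of the factors -/
noncomputable def wF (E : Curve p) (F' F : RealAbelian) : MonoidAlgebra ℤ_[p] F'.Gal :=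
  ∏ l ∈ (F.m / F'.m).primeFactors, wl ℤ_[p] E.a (fun l => F'.proj (frob F'.m l)) l

/-- the product of the primes -/
noncomputable def qF (p : ℕ) [Fact p.Prime] (F' F : RealAbelian) : ℤ_[p] :=
  ∏ l ∈ (F.m / F'.m).primeFactors, (l : ℤ_[p])

include hA h in
theorem mem_primes {l : ℕ} (hl : l ∈ (F.m / F'.m).primeFactors) :
    ¬ p ∣ l ∧ ¬ (p : ℤ) ∣ l + 1 - E.a l := by
  have hl' := Nat.mem_primeFactors.1 hl
  have hlm : l ∣ F.m := hl'.2.1.trans (Nat.div_dvd_of_dvd h.1)
  exact ⟨fun hpl => hA.2.2.1 (hpl.trans hlm), hA.2.2.2 l hl'.1 hlm⟩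

include hA h in
theorem isUnit_qF : IsUnit (qF p F' F) := by
  rw [qF]
  refine Finset.prod_induction _ IsUnit (fun _ _ ha hb => ha.mul hb) isUnit_one fun l hl => ?_
  exact isUnit_of_not_dvd (mem_primes E h hA hl).1

theorem isUnit_intCast (n : ℤ) (hn : ¬ (p : ℤ) ∣ n) : IsUnit (n : ℤ_[p]) := by
  obtain ⟨m, rfl | rfl⟩ := n.eq_nat_or_neg
  · rw [Int.cast_natCast]
    exact isUnit_of_not_dvd fun hd => hn (Int.natCast_dvd_natCast.2 hd)
  · rw [Int.cast_neg, Int.cast_natCast, IsUnit.neg_iff]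
    exact isUnit_of_not_dvd fun hd => hn (by
      rw [Int.dvd_neg]; exact Int.natCast_dvd_natCast.2 hd)

include hA h in
theorem isUnit_aug_wF : IsUnit (aug ℤ_[p] F'.Gal (wF E F' F)) := by
  rw [wF, map_prod]
  refine Finset.prod_induction _ IsUnit (fun _ _ ha hb => ha.mul hb) isUnit_one fun l hl => ?_
  rw [aug_wl]
  have := isUnit_intCast (p := p) _ (mem_primes E h hA hl).2
  push_cast at this
  exact this.neg

include hA h in
theorem const_rel' : qF p F' F * E.const F.m = aug ℤ_[p] F'.Gal (wF E F' F) * E.const F'.m := by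
  rw [wF, map_prod, qF, const_rel E F'.m F.m hA h.1]
  congr 1
  exact Finset.prod_congr rfl fun l _ => (aug_wl _ _ _).symm

include hA in
theorem theta_rel' (θ : MonoidAlgebra ℤ_[p] F.Gal) (hθ : IsTheta E F θ)
    (θ' : MonoidAlgebra ℤ_[p] F'.Gal) (hθ' : IsTheta E F' θ') :
    algebraMap ℤ_[p] (MonoidAlgebra ℤ_[p] F'.Gal) (qF p F' F) * mp ℤ_[p] (res h) θ =
      wF E F' F * θ' := by
  rw [wF, ← theta_rel E h hA θ hθ θ' hθ', qF, map_prod]
  simp only [map_natCast]

include hA in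
theorem pair_rel (i j : Fin E.r) : Cg (augIdeal ℤ_[p] F'.Gal) 1
    (mp ℤ_[p] (res h) (E.pairMatrix F i j)) (E.pairMatrix F' i j) := by
  obtain ⟨k, hk, hk'⟩ := E.pair_compat F.m F'.m h.1 hA i j
  rw [Curve.pairMatrix, Curve.pairMatrix, Matrix.of_apply, Matrix.of_apply, map_sub,
    RingHom.map_one, mp_of, res_mk]
  refine of_cg (p := p) _ _ k hk ?_
  rcases hk' with h1 | h1
  · have h0 := congrArg F'.proj h1
    rwa [map_pow F'.proj, map_pow F'.proj] at h0
  · have h0 := congrArg F'.proj h1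
    rw [← neg_one_mul (E.pair F'.m i j ^ k), map_mul, (proj_eq_one F' _).2 F'.neg_one_mem,
      one_mul, map_pow F'.proj, map_pow F'.proj] at h0
    exact h0

end rel

/-- The conjecture for `F` gives the conjecture for the subfields. -/
theorem subfield_of_field {F' F : RealAbelian} (h : F'.IsSubfield F)
    (hA : Admissible p E.N E.a F.m) (hθ' : ∃ θ', IsTheta E F' θ') (hMT : MazurTate E F) :
    MazurTate E F' := by
  obtain ⟨θ, hθ, _, h2⟩ := hMT
  obtain ⟨θ', hθ'⟩ := hθ'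
  have := mem_quotient (res h) (qF p F' F) (E.const F.m) (E.const F'.m) (wF E F' F)
    (const_rel' E h hA) θ θ' (theta_rel' E h hA θ hθ θ' hθ') (E.pairMatrix F)
    (E.pairMatrix F') (pair_rel E h hA) (isUnit_aug_wF E h hA) h2
  exact ⟨θ', hθ', this.1, this.2⟩

theorem det_mem (F : RealAbelian) : (E.pairMatrix F).det ∈ augIdeal ℤ_[p] F.Gal ^ E.r := by
  refine (Cg.det (I := augIdeal ℤ_[p] F.Gal) (E.pairMatrix F) (E.pairMatrix F) fun i j =>
    Cg.refl ?_).1
  rw [pow_one]
  exact of_sub_one_mem _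

theorem cyclic_of_injective {G C : Type} [CommGroup G] [CommGroup C] [IsCyclic C] [Finite C]
    (j : G →* C) (hj : Function.Injective j) (b : ℕ) (hC : Nat.card C = p ^ b) :
    IsCyclic G ∧ ∃ c, Nat.card G = p ^ c := by
  refine ⟨isCyclic_of_injective j hj, ?_⟩
  have h1 : Nat.card G ∣ p ^ b := by
    rw [← hC]
    exact Subgroup.card_dvd_of_injective j hj
  obtain ⟨c, _, hc⟩ := (Nat.dvd_prime_pow hp.out).1 h1
  exact ⟨c, hc⟩

/-- The conjecture for the cyclic subfields of `p`-power degree gives the conjecture for `F`, if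
the rank is at most `p`. -/
theorem field_of_cyclic (hr : E.r ≤ p) (F : RealAbelian) (hA : Admissible p E.N E.a F.m)
    (hθ : ∃ θ, IsTheta E F θ)
    (h : ∀ F' : RealAbelian, F'.IsSubfield F → IsCyclic F'.Gal → (∃ b, Nat.card F'.Gal = p ^ b) →
      MazurTate E F') : MazurTate E F := by
  obtain ⟨θ, hθ⟩ := hθ
  have key : θ - E.const F.m • (E.pairMatrix F).det ∈ augIdeal ℤ_[p] F.Gal ^ (E.r + 1) := by
    refine mem_of_tests (E.r + 1) (by omega) _ fun b φ => ?_
    have : NeZero (p ^ b) := ⟨pow_ne_zero _ hp.out.ne_zero⟩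
    obtain ⟨F', hF, j, hj, hjφ⟩ := exists_factor F φ
    have hcyc : IsCyclic (Multiplicative (ZMod (p ^ b))) :=
      ⟨⟨Multiplicative.ofAdd 1, zpowers_ofAdd (p ^ b)⟩⟩
    obtain ⟨h1, h2⟩ := cyclic_of_injective (p := p) j hj b (by
      rw [Nat.card_eq_fintype_card, Fintype.card_multiplicative, ZMod.card])
    obtain ⟨θ', hθ', hm1, hm2⟩ := h F' hF h1 h2
    have h3 := mem_image (res hF) (qF p F' F) (E.const F.m) (E.const F'.m)
      (isUnit_qF E hF hA) (wF E F' F) (const_rel' E hF hA) θ θ'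
      (theta_rel' E hF hA θ hθ θ' hθ') (E.pairMatrix F)
      (E.pairMatrix F') (pair_rel E hF hA) hm1 hm2
    rw [← hjφ, mp_comp]
    exact mp_mem_pow j _ _ h3
  refine ⟨θ, hθ, ?_, key⟩
  have h1 := Ideal.pow_le_pow_right (Nat.le_succ E.r) key
  have h2 : E.const F.m • (E.pairMatrix F).det ∈ augIdeal ℤ_[p] F.Gal ^ E.r := by
    rw [Algebra.smul_def]
    exact Ideal.mul_mem_left _ _ (det_mem E F)
  have h3 := Ideal.add_mem _ h1 h2
  rwa [sub_add_cancel] at h3

end Pool.Agent.Q15.MT
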