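import Pool.Agent.Q15.MT.B5
import Pool.Agent.Q15.MT.A5

set_option maxHeartbeats 4000000
set_option synthInstance.maxHeartbeats 400000
set_option linter.unusedSectionVars false

/-!
# The conjecture and subfields of degree `p`; the order of vanishing
-/

namespace Pool.Agent.Q15.MT

open Complex

variable {p : ℕ} [hp : Fact p.Prime] (E : Curve p)

/-- the image of the element in a cyclic group, from the conjecture for the subfield -/
theorem test_of_subfield {C : Type} [CommGroup C] (F : RealAbelian) (hA : Admissible p E.N E.a F.m)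
    (θ : MonoidAlgebra ℤ_[p] F.Gal) (hθ : IsTheta E F θ) (φ : F.Gal →* C) (F' : RealAbelian)
    (hF : F'.IsSubfield F) (j : F'.Gal →* C) (hjφ : j.comp (res hF) = φ)
    (h : MazurTate E F') :
    mp ℤ_[p] φ (θ - E.const F.m • (E.pairMatrix F).det) ∈ augIdeal ℤ_[p] C ^ (E.r + 1) := by
  obtain ⟨θ', hθ', hm1, hm2⟩ := h
  have h3 := mem_image (res hF) (qF p F' F) (E.const F.m) (E.const F'.m)
    (isUnit_qF E hF hA) (wF E F' F) (const_rel' E hF hA) θ θ'
    (theta_rel' E hF hA θ hθ θ' hθ') (E.pairMatrix F)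
    (E.pairMatrix F') (pair_rel E hF hA) hm1 hm2
  rw [← hjφ, mp_comp]
  exact mp_mem_pow j _ _ h3

theorem mazurTate_of_mem (F : RealAbelian) (θ : MonoidAlgebra ℤ_[p] F.Gal) (hθ : IsTheta E F θ)
    (key : θ - E.const F.m • (E.pairMatrix F).det ∈ augIdeal ℤ_[p] F.Gal ^ (E.r + 1)) :
    MazurTate E F := by
  refine ⟨θ, hθ, ?_, key⟩
  have h1 := Ideal.pow_le_pow_right (Nat.le_succ E.r) key
  have h2 : E.const F.m • (E.pairMatrix F).det ∈ augIdeal ℤ_[p] F.Gal ^ E.r := by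
    rw [Algebra.smul_def]
    exact Ideal.mul_mem_left _ _ (det_mem E F)
  have h3 := Ideal.add_mem _ h1 h2
  rwa [sub_add_cancel] at h3

/-- the image of the modular element in a cyclic group -/
theorem test_of_order {C : Type} [CommGroup C] (F : RealAbelian) (hA : Admissible p E.N E.a F.m)
    (θ : MonoidAlgebra ℤ_[p] F.Gal) (hθ : IsTheta E F θ) (φ : F.Gal →* C) (F' : RealAbelian)
    (hF : F'.IsSubfield F) (j : F'.Gal →* C) (hjφ : j.comp (res hF) = φ) (n : ℕ)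
    (h : OrderGE E F' n) : mp ℤ_[p] φ θ ∈ augIdeal ℤ_[p] C ^ n := by
  obtain ⟨θ', hθ', hm⟩ := h
  have h1 := theta_rel' E hF hA θ hθ θ' hθ'
  have h2 : mp ℤ_[p] (res hF) θ ∈ augIdeal ℤ_[p] F'.Gal ^ n := by
    apply mem_of_unit_mul_mem _ (isUnit_qF E hF hA)
    rw [h1]
    exact Ideal.mul_mem_left _ _ hm
  rw [← hjφ, mp_comp]
  exact mp_mem_pow j _ _ h2

theorem order_subfield {F' F : RealAbelian} (h : F'.IsSubfield F)
    (hA : Admissible p E.N E.a F.m) (hθ' : ∃ θ', IsTheta E F' θ') (n : ℕ) (hn : OrderGE E F n) :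
    OrderGE E F' n := by
  obtain ⟨θ, hθ, hm⟩ := hn
  obtain ⟨θ', hθ'⟩ := hθ'
  refine ⟨θ', hθ', mem_of_mul_mem (wF E F' F) θ' (isUnit_aug_wF E h hA) n ?_⟩
  rw [← theta_rel' E h hA θ hθ θ' hθ']
  exact Ideal.mul_mem_left _ _ (mp_mem_pow _ _ _ hm)

theorem order_of_cyclic (F : RealAbelian) (hA : Admissible p E.N E.a F.m)
    (hθ : ∃ θ, IsTheta E F θ) (n : ℕ) (hn : n ≤ p + 1)
    (h : ∀ F' : RealAbelian, F'.IsSubfield F → IsCyclic F'.Gal → (∃ b, Nat.card F'.Gal = p ^ b) →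
      OrderGE E F' n) : OrderGE E F n := by
  obtain ⟨θ, hθ⟩ := hθ
  refine ⟨θ, hθ, mem_of_tests n hn _ fun b φ => ?_⟩
  have : NeZero (p ^ b) := ⟨pow_ne_zero _ hp.out.ne_zero⟩
  obtain ⟨F', hF, j, hj, hjφ⟩ := exists_factor F φ
  have hcyc : IsCyclic (Multiplicative (ZMod (p ^ b))) :=
    ⟨⟨Multiplicative.ofAdd 1, zpowers_ofAdd (p ^ b)⟩⟩
  obtain ⟨h1, h2⟩ := cyclic_of_injective (p := p) j hj b (by
    rw [Nat.card_eq_fintype_card, Fintype.card_multiplicative, ZMod.card])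
  exact test_of_order E F hA θ hθ φ F' hF j hjφ n (h F' hF h1 h2)

theorem card_dvd {G : Type} [CommGroup G] (j : G →* Multiplicative (ZMod (p ^ 1)))
    (hj : Function.Injective j) : Nat.card G ∣ p := by
  have : NeZero (p ^ 1) := ⟨pow_ne_zero _ hp.out.ne_zero⟩
  have h1 := Subgroup.card_dvd_of_injective j hj
  have h2 : Nat.card (Multiplicative (ZMod (p ^ 1))) = p := by
    rw [Nat.card_eq_fintype_card, Fintype.card_multiplicative, ZMod.card, pow_one]
  rwa [h2] at h1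

theorem field_of_degree (F : RealAbelian) (hG : ∀ x : F.Gal, x ^ p ^ 2 = 1 → x ^ p = 1)
    (hA : Admissible p E.N E.a F.m) (hθ : ∃ θ, IsTheta E F θ)
    (h : ∀ F' : RealAbelian, F'.IsSubfield F → Nat.card F'.Gal ∣ p → MazurTate E F') :
    MazurTate E F := by
  obtain ⟨θ, hθ⟩ := hθ
  refine mazurTate_of_mem E F θ hθ (mem_of_tests' hG (E.r + 1) _ fun φ => ?_)
  obtain ⟨F', hF, j, hj, hjφ⟩ := exists_factor F φ
  exact test_of_subfield E F hA θ hθ φ F' hF j hjφ (h F' hF (card_dvd j hj))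

theorem order_of_degree (F : RealAbelian) (hG : ∀ x : F.Gal, x ^ p ^ 2 = 1 → x ^ p = 1)
    (hA : Admissible p E.N E.a F.m) (hθ : ∃ θ, IsTheta E F θ) (n : ℕ)
    (h : ∀ F' : RealAbelian, F'.IsSubfield F → Nat.card F'.Gal ∣ p → OrderGE E F' n) :
    OrderGE E F n := by
  obtain ⟨θ, hθ⟩ := hθ
  refine ⟨θ, hθ, mem_of_tests' hG n _ fun φ => ?_⟩
  obtain ⟨F', hF, j, hj, hjφ⟩ := exists_factor F φ
  exact test_of_order E F hA θ hθ φ F' hF j hjφ n (h F' hF (card_dvd j hj))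

end Pool.Agent.Q15.MT
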