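import Pool.Agent.Q15.MT.A1

set_option maxHeartbeats 4000000
set_option synthInstance.maxHeartbeats 400000

/-!
# The Mazur-Tate conjecture for modular elements: definitions
-/

namespace Pool.Agent.Q15.MT

open Complex

/-- The class of `l` in `(ℤ/m)ˣ` (the Frobenius automorphism of `ℚ(ζ_m)` at the prime `l`), `1` if
`l` is not prime to `m`. -/
def frob (m l : ℕ) : (ZMod m)ˣ := if h : l.Coprime m then ZMod.unitOfCoprime l h else 1

/-- The Gauss sum `τ_m(χ) = ∑ χ(σ) e^(2πiσ/m)` over `σ ∈ (ℤ/m)ˣ`. -/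
noncomputable def gauss (m : ℕ) [NeZero m] (χ : (ZMod m)ˣ →* ℂˣ) : ℂ :=
  ∑ σ : (ZMod m)ˣ, (χ σ : ℂ) * exp (2 * Real.pi * I * ((σ : ZMod m).val : ℂ) / m)

/-- `L` is the `L`-function `∏ (1 - a_l χ(l) l^(-s) + χ(l)² l^(1-2s))⁻¹`, the product over the primes
which do not divide `m N`: an entire function with this product for `Re s > 2`. -/
def IsL (N : ℕ) (a : ℕ → ℤ) (m : ℕ) (χ : (ZMod m)ˣ →* ℂˣ) (L : ℂ → ℂ) : Prop :=
  Differentiable ℂ L ∧ ∀ s : ℂ, 2 < s.re → HasProd (fun l : Nat.Primes =>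
    if (l : ℕ) ∣ m * N then (1 : ℂ) else
      (1 - a l * (χ (frob m l) : ℂ) * (l : ℂ) ^ (-s) +
        (χ (frob m l) : ℂ) ^ 2 * (l : ℂ) ^ (1 - 2 * s))⁻¹) (L s)

/-- The conditions on the conductor `m`: squarefree, prime to `N p`, and `#E(𝔽_l) = l + 1 - a_l` is
prime to `p` for the primes `l ∣ m`. -/
def Admissible (p N : ℕ) (a : ℕ → ℤ) (m : ℕ) : Prop :=
  Squarefree m ∧ m.Coprime N ∧ ¬ p ∣ m ∧ ∀ l, l.Prime → l ∣ m → ¬ (p : ℤ) ∣ l + 1 - a l

/-- The data of an elliptic curve `E` over `ℚ` and a prime `p` which enter the conjecture. -/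
structure Curve (p : ℕ) [Fact p.Prime] where
  /-- the conductor -/
  N : ℕ
  /-- the traces of Frobenius `a_l = l + 1 - #E(𝔽_l)` -/
  a : ℕ → ℤ
  /-- the period `Ω⁺` -/
  period : ℂ
  period_ne : period ≠ 0
  /-- the factor of the algebraic `L`-value which does not depend on the field:
  `#Ш · Tam / #E(ℚ)_tors²` times the factors `#E^ns(𝔽_l) / l` for `l ∣ N` -/
  kappa : ℤ_[p]
  /-- the rank of `E(ℚ)` -/
  r : ℕ
  /-- the functions `L_S(E, χ, s)` for the characters `χ` of `(ℤ/m)ˣ`, `S = {l : l ∣ m N}` -/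
  L : ∀ m : ℕ, ((ZMod m)ˣ →* ℂˣ) → ℂ → ℂ
  isL : ∀ m, Admissible p N a m → ∀ χ, IsL N a m χ (L m χ)
  /-- elements of `(ℤ/m)ˣ` which represent the values `⟨x_i, x_j⟩_m` of the pairing, in
  `(ℤ/m)ˣ/±1 ⊗ ℤ_p`, for a basis of `E(ℚ)` modulo torsion -/
  pair : ∀ m : ℕ, Fin r → Fin r → (ZMod m)ˣ
  /-- the pairings for `m` and for a divisor of `m` are compatible -/
  pair_compat : ∀ m m' (h : m' ∣ m), Admissible p N a m → ∀ i j, ∃ k : ℕ, ¬ p ∣ k ∧
    ((ZMod.unitsMap h (pair m i j)) ^ k = pair m' i j ^ k ∨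
      (ZMod.unitsMap h (pair m i j)) ^ k = - pair m' i j ^ k)

/-- A real abelian field `F` of conductor `m`, given by the subgroup `H` of `(ℤ/m)ˣ`: the subfield of
`ℚ(ζ_m)` fixed by `H ∋ -1`, such that `F` is in no `ℚ(ζ_d)` for a proper divisor `d` of `m`. -/
structure RealAbelian where
  m : ℕ
  ne : NeZero m
  H : Subgroup (ZMod m)ˣ
  neg_one_mem : -1 ∈ H
  conductor : ∀ d (h : d ∣ m), (ZMod.unitsMap h).ker ≤ H → d = m

attribute [instance] RealAbelian.ne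

/-- The Galois group of `F` over `ℚ`. -/
def RealAbelian.Gal (F : RealAbelian) : Type := (ZMod F.m)ˣ ⧸ F.H

noncomputable instance (F : RealAbelian) : CommGroup F.Gal :=
  inferInstanceAs (CommGroup ((ZMod F.m)ˣ ⧸ F.H))

/-- The projection `(ℤ/m)ˣ → Gal(F/ℚ)`. -/
noncomputable def RealAbelian.proj (F : RealAbelian) : (ZMod F.m)ˣ →* F.Gal :=
  QuotientGroup.mk' F.H

/-- `F'` is a subfield of `F`. -/
def RealAbelian.IsSubfield (F' F : RealAbelian) : Prop :=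
  ∃ h : F'.m ∣ F.m, ∀ x ∈ F.H, ZMod.unitsMap h x ∈ F'.H

variable {p : ℕ} [Fact p.Prime]

/-- `θ ∈ ℤ_p[Gal(F/ℚ)]` is the modular element: it has rational coefficients and
`χ(θ) = τ_m(χ) L_S(E, χ⁻¹, 1) / Ω⁺` for all characters `χ` of `Gal(F/ℚ)`. -/
def IsTheta (E : Curve p) (F : RealAbelian) (θ : MonoidAlgebra ℤ_[p] F.Gal) : Prop :=
  ∃ t : MonoidAlgebra ℚ F.Gal, (∀ g, ((θ.coeff g : ℤ_[p]) : ℚ_[p]) = ((t.coeff g : ℚ) : ℚ_[p])) ∧
    ∀ χ : F.Gal →* ℂˣ, t.coeff.sum (fun g c => (c : ℂ) * (χ g : ℂ)) =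
      gauss F.m (χ.comp F.proj) * E.L F.m (χ.comp F.proj)⁻¹ 1 / E.period

/-- The modular element of `F` is in the `n`-th power of the augmentation ideal. -/
def OrderGE (E : Curve p) (F : RealAbelian) (n : ℕ) : Prop :=
  ∃ θ : MonoidAlgebra ℤ_[p] F.Gal, IsTheta E F θ ∧ θ ∈ augIdeal ℤ_[p] F.Gal ^ n

/-- The constant `(-1)^ν(m) 𝓛`, `𝓛 = κ ∏ (l + 1 - a_l) / l` over the primes `l ∣ m`. -/
noncomputable def Curve.const (E : Curve p) (m : ℕ) : ℤ_[p] :=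
  (-1) ^ m.primeFactors.card * (E.kappa *
    ∏ l ∈ m.primeFactors, (((l : ℤ) + 1 - E.a l : ℤ) : ℤ_[p]) * Ring.inverse (l : ℤ_[p]))

/-- The matrix of the pairing, with values in the augmentation ideal (modulo its square). -/
noncomputable def Curve.pairMatrix (E : Curve p) (F : RealAbelian) :
    Matrix (Fin E.r) (Fin E.r) (MonoidAlgebra ℤ_[p] F.Gal) :=
  Matrix.of fun i j => MonoidAlgebra.of ℤ_[p] F.Gal (F.proj (E.pair F.m i j)) - 1

/-- The assertion Q1 for `E`, `F` and `p`: the modular element `θ` is in `I ^ r` and congruent to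
`(-1)^ν(m) 𝓛 R_F` modulo `I ^ (r + 1)`. -/
def MazurTate (E : Curve p) (F : RealAbelian) : Prop :=
  ∃ θ : MonoidAlgebra ℤ_[p] F.Gal, IsTheta E F θ ∧ θ ∈ augIdeal ℤ_[p] F.Gal ^ E.r ∧
    θ - E.const F.m • (E.pairMatrix F).det ∈ augIdeal ℤ_[p] F.Gal ^ (E.r + 1)

end Pool.Agent.Q15.MT
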